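import Pool.Agent.Helper78_MT.Assembly

/-! Lie algebras of sets of matrices: adjoint action, inclusion, idempotents, base change. -/

set_option autoImplicit false
set_option linter.unusedSectionVars false

namespace Pool.Agent.Helper3_MT

open MvPolynomial Matrix Module Pool.Agent.Helper78_MT

variable {n : Type*} [Fintype n] [DecidableEq n]

section
variable {K : Type*} [Field K]

/-- derivations and left translations -/
theorem dr_lsub (A X : Matrix n n K) (p : MvPolynomial (n × n) K) :
    dr X (lsub A p) = lsub A (dr X p) := by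
  induction p using MvPolynomial.induction_on with
  | C c => simp [lsub]
  | add p q hp hq => rw [map_add, map_add, hp, hq, map_add, map_add]
  | mul_X p ij hp =>
    have e1 : dr X (lsub A (MvPolynomial.X ij)) = lsub A (dr X (MvPolynomial.X ij)) := by
      have h1 : lsub A (MvPolynomial.X ij) = ∑ k, C (A ij.1 k) * MvPolynomial.X (k, ij.2) := by
        simp [lsub]
      rw [h1, map_sum, dr_X, map_sum]
      have h2 : ∀ k, dr X (C (A ij.1 k) * MvPolynomial.X (k, ij.2)) =
          ∑ l, (A ij.1 k * X l ij.2) • MvPolynomial.X (k, l) := by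
        intro k
        rw [← smul_eq_C_mul, Derivation.map_smul, dr_X, Finset.smul_sum]
        exact Finset.sum_congr rfl (fun l _ => by rw [smul_smul])
      have h3 : ∀ l, lsub A (X l ij.2 • MvPolynomial.X (ij.1, l)) =
          ∑ k, (A ij.1 k * X l ij.2) • MvPolynomial.X (k, l) := by
        intro l
        rw [map_smul]
        simp only [lsub, aeval_X]
        rw [Finset.smul_sum]
        apply Finset.sum_congr rfl
        intro k _
        rw [← smul_eq_C_mul, smul_smul, mul_comm]
      rw [Finset.sum_congr rfl (fun k _ => h2 k), Finset.sum_congr rfl (fun l _ => h3 l),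
        Finset.sum_comm]
    rw [map_mul, Derivation.leibniz, Derivation.leibniz, map_add, hp, e1]
    simp only [smul_eq_mul, map_mul]

/-- derivations and right translations -/
theorem dr_rsub {A X Y : Matrix n n K} (h : X * A = A * Y) (p : MvPolynomial (n × n) K) :
    dr X (rsub A p) = rsub A (dr Y p) := by
  induction p using MvPolynomial.induction_on with
  | C c => simp [rsub]
  | add p q hp hq => rw [map_add, map_add, hp, hq, map_add, map_add]
  | mul_X p ij hp =>
    have e1 : dr X (rsub A (MvPolynomial.X ij)) = rsub A (dr Y (MvPolynomial.X ij)) := by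
      have h1 : rsub A (MvPolynomial.X ij) = ∑ k, MvPolynomial.X (ij.1, k) * C (A k ij.2) := by
        simp [rsub]
      rw [h1, map_sum, dr_X, map_sum]
      have h2 : ∀ k, dr X (MvPolynomial.X (ij.1, k) * C (A k ij.2)) =
          ∑ l, (X l k * A k ij.2) • MvPolynomial.X (ij.1, l) := by
        intro k
        rw [mul_comm, ← smul_eq_C_mul, Derivation.map_smul, dr_X, Finset.smul_sum]
        exact Finset.sum_congr rfl (fun l _ => by rw [smul_smul, mul_comm])
      have h3 : ∀ k, rsub A (Y k ij.2 • MvPolynomial.X (ij.1, k)) =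
          ∑ l, (A l k * Y k ij.2) • MvPolynomial.X (ij.1, l) := by
        intro k
        rw [map_smul]
        simp only [rsub, aeval_X]
        rw [Finset.smul_sum]
        apply Finset.sum_congr rfl
        intro l _
        rw [mul_comm (MvPolynomial.X _), ← smul_eq_C_mul, smul_smul, mul_comm]
      rw [Finset.sum_congr rfl (fun k _ => h2 k), Finset.sum_congr rfl (fun k _ => h3 k),
        Finset.sum_comm, Finset.sum_comm (f := fun k l => (A l k * Y k ij.2) •
          (MvPolynomial.X (ij.1, l) : MvPolynomial (n × n) K))]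
      apply Finset.sum_congr rfl
      intro l _
      rw [← Finset.sum_smul, ← Finset.sum_smul]
      congr 1
      rw [← Matrix.mul_apply, ← Matrix.mul_apply, h]
    rw [map_mul, Derivation.leibniz, Derivation.leibniz, map_add, hp, e1]
    simp only [smul_eq_mul, map_mul]

/-- the Lie algebra is stable under the adjoint action -/
theorem lieOf_conj {G : Set (Matrix n n K)} {g g' : Matrix n n K} (hgg : g' * g = 1)
    (hg : ∀ a ∈ G, a * g ∈ G) (hg' : ∀ a ∈ G, a * g' ∈ G) {X : Matrix n n K} (hX : X ∈ lieOf G) :
    g * X * g' ∈ lieOf G := by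
  rw [mem_lieOf] at hX ⊢
  intro p hp h hh
  -- `h = (h g) g'`
  have hgg' : g * g' = 1 := mul_eq_one_comm.mp hgg
  have h1 : X * g' = g' * (g * X * g') := by
    rw [← mul_assoc, ← mul_assoc, hgg, one_mul]
  have h2 := hX (rsub g' p) (fun a ha => by rw [pev_rsub]; exact hp _ (hg' a ha)) (h * g) (hg h hh)
  rw [dr_rsub h1, pev_rsub, mul_assoc, hgg', mul_one] at h2
  exact h2

/-- the Lie algebra of a smaller set closed under multiplication and containing one -/
theorem lieOf_mono {G M : Set (Matrix n n K)} (hGM : G ⊆ M) (hone : 1 ∈ G)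
    (hmul : ∀ a ∈ M, ∀ b ∈ M, a * b ∈ M) : lieOf G ≤ lieOf M := by
  intro X hX
  rw [mem_lieOf] at hX ⊢
  intro p hp m hm
  have h1 := hX (lsub m p) (fun a ha => by rw [pev_lsub]; exact hp _ (hmul m hm a (hGM ha))) 1 hone
  rw [dr_lsub, pev_lsub, mul_one] at h1
  exact h1

end

section idem
variable {K : Type*} [Field K] [CharZero K]

theorem poly_zero_of_deriv_one {f : Polynomial K}
    (h : ∀ k : ℕ, (Polynomial.derivative^[k] f).eval 1 = 0) : f = 0 := by
  have h1 : ∀ k : ℕ, Polynomial.derivative^[k] (f.comp (Polynomial.X + Polynomial.C 1)) =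
      (Polynomial.derivative^[k] f).comp (Polynomial.X + Polynomial.C 1) := by
    intro k
    induction k with
    | zero => rfl
    | succ k ih =>
      rw [Function.iterate_succ_apply', ih, Function.iterate_succ_apply', Polynomial.derivative_comp]
      simp
  have h2 : f.comp (Polynomial.X + Polynomial.C 1) = 0 := by
    apply poly_zero_of_deriv
    intro k
    rw [h1, Polynomial.eval_comp]
    simp only [Polynomial.eval_add, Polynomial.eval_X, Polynomial.eval_C, zero_add]
    exact h k
  have h3 : (f.comp (Polynomial.X + Polynomial.C 1)).comp (Polynomial.X - Polynomial.C 1) = f := by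
    rw [Polynomial.comp_assoc]
    simp
  rw [← h3, h2, Polynomial.zero_comp]

/-- an idempotent of the Lie algebra integrates to a cocharacter -/
theorem idem_mem {G : Set (Matrix n n K)} (hone : 1 ∈ G) {Q : Matrix n n K}
    (hQ : Q * Q = Q) (hQG : Q ∈ lieOf G) (t : K) (p : MvPolynomial (n × n) K)
    (hp : ∀ g ∈ G, pev g p = 0) : pev ((1 - Q) + t • Q) p = 0 := by
  have h1 : ∀ i j, (Polynomial.X : Polynomial K) * Polynomial.derivative (lin (1 - Q) Q i j) =
      ∑ k, Q k j • lin (1 - Q) Q i k := by
    intro i j
    rw [lin_deriv, lin_sum, sub_mul, one_mul, hQ, sub_self]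
    simp [lin]
  have h2 : ∀ k : ℕ, ∃ q : MvPolynomial (n × n) K, (∀ g ∈ G, pev g q = 0) ∧
      Polynomial.X ^ k * Polynomial.derivative^[k] (cev (lin (1 - Q) Q) p) = cev (lin (1 - Q) Q) q := by
    intro k
    induction k with
    | zero => exact ⟨p, hp, by simp⟩
    | succ k ih =>
      obtain ⟨q, hq, h⟩ := ih
      refine ⟨dr Q q - (k : K) • q, ?_, ?_⟩
      · intro g hg
        rw [map_sub, map_smul, mem_lieOf.mp hQG q hq g hg, hq g hg, smul_zero, sub_zero]
      · rw [Function.iterate_succ_apply']
        have h3 := cev_deriv h1 q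
        rw [← h, Polynomial.derivative_mul] at h3
        rw [map_sub, ← h3, map_smul, ← h, Polynomial.smul_eq_C_mul]
        have h4 : (Polynomial.X : Polynomial K) * Polynomial.derivative (Polynomial.X ^ k) =
            Polynomial.C (k : K) * Polynomial.X ^ k := by
          rcases k with _ | k
          · simp
          · rw [Polynomial.derivative_X_pow]
            rw [Nat.add_sub_cancel]
            ring
        rw [mul_add, ← mul_assoc, h4]
        ring
  have h3 : cev (lin (1 - Q) Q) p = 0 := by
    apply poly_zero_of_deriv_one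
    intro k
    obtain ⟨q, hq, h⟩ := h2 k
    have h4 := congrArg (Polynomial.eval 1) h
    rw [Polynomial.eval_mul, Polynomial.eval_pow, Polynomial.eval_X, one_pow, one_mul, cev_eval,
      lin_eval, one_smul, sub_add_cancel] at h4
    rw [h4]
    exact hq _ hone
  rw [← lin_eval, ← cev_eval, h3, Polynomial.eval_zero]

end idem

section basechange
variable {F K : Type*} [Field F] [Field K] [Algebra F K]

/-- coordinates of a matrix over `K` with respect to a basis over `F` -/
theorem mat_dec (X : Matrix n n K) : ∃ (s : Finset (Module.Basis.ofVectorSpaceIndex F K))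
    (co : Module.Basis.ofVectorSpaceIndex F K → Matrix n n F),
    X = ∑ k ∈ s, (Module.Basis.ofVectorSpace F K k) • (co k).map (algebraMap F K) ∧
    ∀ k i j, co k i j = (Module.Basis.ofVectorSpace F K).repr (X i j) k := by
  classical
  let B := Module.Basis.ofVectorSpace F K
  let co : Module.Basis.ofVectorSpaceIndex F K → Matrix n n F := fun k i j => B.repr (X i j) k
  let s : Finset (Module.Basis.ofVectorSpaceIndex F K) :=
    Finset.univ.biUnion (fun i : n => Finset.univ.biUnion (fun j : n => (B.repr (X i j)).support))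
  refine ⟨s, co, ?_, fun _ _ _ => rfl⟩
  ext i j
  rw [Matrix.sum_apply]
  have h1 := B.linearCombination_repr (X i j)
  conv_lhs => rw [← h1]
  rw [Finsupp.linearCombination_apply,
    Finsupp.sum_of_support_subset (s := s) _ (by
      intro k hk
      exact Finset.mem_biUnion.mpr ⟨i, Finset.mem_univ _,
        Finset.mem_biUnion.mpr ⟨j, Finset.mem_univ _, hk⟩⟩) _ (by simp)]
  apply Finset.sum_congr rfl
  intro k _
  rw [Matrix.smul_apply, Matrix.map_apply, smul_eq_mul, Algebra.smul_def, mul_comm]

/-- coordinates of a polynomial over `K` with respect to a basis over `F` -/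
theorem pol_dec {σ : Type*} (q : MvPolynomial σ K) :
    ∃ (s : Finset (Module.Basis.ofVectorSpaceIndex F K))
    (co : Module.Basis.ofVectorSpaceIndex F K → MvPolynomial σ F),
    q = ∑ k ∈ s, C (Module.Basis.ofVectorSpace F K k) * MvPolynomial.map (algebraMap F K) (co k) := by
  classical
  let B := Module.Basis.ofVectorSpace F K
  let co : Module.Basis.ofVectorSpaceIndex F K → MvPolynomial σ F := fun i =>
    ∑ m ∈ q.support, monomial m (B.repr (coeff m q) i)
  let s₀ : Finset (Module.Basis.ofVectorSpaceIndex F K) :=
    q.support.biUnion (fun m => (B.repr (coeff m q)).support)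
  have hcoeff : ∀ i m, coeff m (co i) = B.repr (coeff m q) i := by
    intro i m
    simp only [co, coeff_sum, coeff_monomial]
    rw [Finset.sum_ite_eq' q.support m]
    split_ifs with h
    · rfl
    · rw [notMem_support_iff.mp h]; simp
  refine ⟨s₀, co, ?_⟩
  ext m
  rw [coeff_sum]
  simp only [coeff_C_mul, coeff_map, hcoeff]
  by_cases hm : m ∈ q.support
  · have h1 := B.linearCombination_repr (coeff m q)
    conv_lhs => rw [← h1]
    rw [Finsupp.linearCombination_apply,
      Finsupp.sum_of_support_subset (s := s₀) _ (by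
        intro i hi
        exact Finset.mem_biUnion.mpr ⟨m, hm, hi⟩) _ (by simp)]
    apply Finset.sum_congr rfl
    intro i _
    rw [Algebra.smul_def, mul_comm]
  · rw [notMem_support_iff.mp hm]; simp

/-- a relation over the basis -/
theorem rel_zero {s : Finset (Module.Basis.ofVectorSpaceIndex F K)}
    {a : Module.Basis.ofVectorSpaceIndex F K → F}
    (h : ∑ k ∈ s, (Module.Basis.ofVectorSpace F K k) * algebraMap F K (a k) = 0) :
    ∀ k ∈ s, a k = 0 := by
  have h2 : ∑ k ∈ s, a k • Module.Basis.ofVectorSpace F K k = 0 := by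
    rw [← h]
    apply Finset.sum_congr rfl
    intro j _
    rw [Algebra.smul_def, mul_comm]
  intro k hk
  exact linearIndependent_iff'.mp (Module.Basis.ofVectorSpace F K).linearIndependent s _ h2 k hk

theorem map_dr (X : Matrix n n F) (p : MvPolynomial (n × n) F) :
    MvPolynomial.map (algebraMap F K) (dr X p) =
      dr (X.map (algebraMap F K)) (MvPolynomial.map (algebraMap F K) p) := by
  induction p using MvPolynomial.induction_on with
  | C c => simp
  | add p q hp hq => rw [map_add, map_add, hp, hq, map_add, map_add]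
  | mul_X p ij hp =>
    rw [Derivation.leibniz, map_add, map_mul, Derivation.leibniz]
    simp only [smul_eq_mul, map_mul, hp, MvPolynomial.map_X, dr_X, map_sum]
    congr 2
    apply Finset.sum_congr rfl
    intro k _
    rw [MvPolynomial.smul_eq_C_mul, MvPolynomial.smul_eq_C_mul, map_mul, MvPolynomial.map_C,
      MvPolynomial.map_X, Matrix.map_apply]

/-- a derivation in a direction which is a combination -/
theorem dr_sum {K : Type*} [Field K] {ι : Type*} (s : Finset ι) (a : ι → K) (Y : ι → Matrix n n K)
    (p : MvPolynomial (n × n) K) : dr (∑ k ∈ s, a k • Y k) p = ∑ k ∈ s, a k • dr (Y k) p := by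
  classical
  induction s using Finset.induction_on with
  | empty => rw [Finset.sum_empty, Finset.sum_empty, dr_zero]
  | insert k s hk ih => rw [Finset.sum_insert hk, Finset.sum_insert hk, dr_add, dr_smul, ih]

/-- extension of scalars of Lie algebras, easy half -/
theorem lie_up {S : Set (Matrix n n F)} {T : Set (Matrix n n K)}
    (hT : ∀ q : MvPolynomial (n × n) K, (∀ t ∈ T, pev t q = 0) ↔
      ∀ s ∈ S, pev (s.map (algebraMap F K)) q = 0)
    {X : Matrix n n F} (hX : X ∈ lieOf S) : X.map (algebraMap F K) ∈ lieOf T := by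
  rw [mem_lieOf] at hX ⊢
  intro p hp
  rw [hT] at hp ⊢
  obtain ⟨s, co, hco⟩ := pol_dec (F := F) p
  intro x hx
  have h1 : ∀ k ∈ s, ∀ x ∈ S, pev x (co k) = 0 := by
    intro k hk x hx
    have h2 := hp x hx
    rw [hco, map_sum] at h2
    have h3 : ∀ k, pev (x.map (algebraMap F K)) (C (Module.Basis.ofVectorSpace F K k) *
        MvPolynomial.map (algebraMap F K) (co k)) =
        (Module.Basis.ofVectorSpace F K k) * algebraMap F K (pev x (co k)) := by
      intro k
      rw [map_mul, pev_C, pev_map, pev_algebraMap]
      rfl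
    rw [Finset.sum_congr rfl (fun k _ => h3 k)] at h2
    exact rel_zero (a := fun k => pev x (co k)) h2 k hk
  rw [hco, map_sum, map_sum]
  apply Finset.sum_eq_zero
  intro k hk
  rw [Derivation.leibniz]
  have h4 : dr (X.map (algebraMap F K)) (C (Module.Basis.ofVectorSpace F K k)) = 0 := by
    rw [← algebraMap_eq]; exact Derivation.map_algebraMap _ _
  rw [h4, smul_zero, add_zero, smul_eq_mul, map_mul, ← map_dr, pev_map, pev_algebraMap,
    hX _ (h1 k hk) x hx, map_zero, mul_zero]

/-- extension of scalars of Lie algebras, other half -/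
theorem lie_down {S : Set (Matrix n n F)} {T : Set (Matrix n n K)}
    (hT : ∀ q : MvPolynomial (n × n) K, (∀ t ∈ T, pev t q = 0) ↔
      ∀ s ∈ S, pev (s.map (algebraMap F K)) q = 0)
    {X : Matrix n n K} (hX : X ∈ lieOf T) :
    ∃ (s : Finset (Module.Basis.ofVectorSpaceIndex F K))
      (co : Module.Basis.ofVectorSpaceIndex F K → Matrix n n F),
      X = ∑ k ∈ s, (Module.Basis.ofVectorSpace F K k) • (co k).map (algebraMap F K) ∧
        ∀ k ∈ s, co k ∈ lieOf S := by
  obtain ⟨s, co, hX1, -⟩ := mat_dec (F := F) X
  refine ⟨s, co, hX1, ?_⟩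
  intro k hk
  rw [mem_lieOf] at hX ⊢
  intro p hp x hx
  have h1 := hX (MvPolynomial.map (algebraMap F K) p) (by
    rw [hT]
    intro s hs
    rw [pev_map, pev_algebraMap, hp s hs, map_zero])
  rw [hT] at h1
  have h2 := h1 x hx
  rw [hX1, dr_sum, map_sum] at h2
  have h3 : ∀ k, pev (x.map (algebraMap F K)) ((Module.Basis.ofVectorSpace F K k) •
      dr ((co k).map (algebraMap F K)) (MvPolynomial.map (algebraMap F K) p)) =
      (Module.Basis.ofVectorSpace F K k) * algebraMap F K (pev x (dr (co k) p)) := by
    intro k
    rw [map_smul, ← map_dr, pev_map, pev_algebraMap, smul_eq_mul]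
  rw [Finset.sum_congr rfl (fun k _ => h3 k)] at h2
  exact rel_zero (a := fun k => pev x (dr (co k) p)) h2 k hk

end basechange

end Pool.Agent.Helper3_MT
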