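import Pool.Agent.Helper3_MT.Tens
import Pool.Agent.Helper3_MT.Lie

/-! The complex points of the Mumford-Tate group: generation by cocharacters, descent of invariant
tensors. -/

set_option autoImplicit false
set_option linter.unusedSectionVars false

namespace Pool.Agent.Helper3_MT

open Matrix Module Pool.Agent.Helper78_MT

variable {n : Type*} [Fintype n] [DecidableEq n]

/-- the matrices `a + b J`, with `a + b i` nonzero -/
def circ (J : Matrix n n ℝ) : Set (Matrix n n ℝ) :=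
  {X : Matrix n n ℝ | ∃ a b : ℝ, ¬ (a = 0 ∧ b = 0) ∧ X = a • 1 + b • J}

theorem circ_unit {J : Matrix n n ℝ} (hJ : J * J = -1) : ∀ s ∈ circ J, IsUnit s.det := by
  rintro _ ⟨a, b, hab, rfl⟩
  have h1 : (a • (1 : Matrix n n ℝ) + b • J) * ((a * a + b * b)⁻¹ • (a • 1 - b • J)) = 1 := by
    have h2 : a * a + b * b ≠ 0 := by
      intro h
      apply hab
      constructor
      · nlinarith [mul_self_nonneg a, mul_self_nonneg b]
      · nlinarith [mul_self_nonneg a, mul_self_nonneg b]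
    rw [mul_smul_comm]
    have h3 : (a • (1 : Matrix n n ℝ) + b • J) * (a • 1 - b • J) = (a * a + b * b) • 1 := by
      simp only [add_mul, mul_sub, smul_mul_assoc, mul_smul_comm, one_mul, mul_one, hJ]
      module
    rw [h3, smul_smul, inv_mul_cancel₀ h2, one_smul]
  have h2 := congrArg det h1
  rw [det_mul, det_one] at h2
  exact IsUnit.of_mul_eq_one _ h2


theorem pev_hom {K L : Type*} [Field K] [CharZero K] [Field L] [CharZero L] (f : K →+* L)
    (g : Matrix n n K) (p : MvPolynomial (n × n) ℚ) : pev (g.map f) p = f (pev g p) := by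
  have h4 : pev (F := ℚ) (g.map f) = f.toRatAlgHom.comp (pev (F := ℚ) g) := by
    apply MvPolynomial.algHom_ext
    intro ij
    simp [pev]
  rw [h4]
  rfl

theorem pev_twist {K : Type*} [Field K] (τ : K ≃+* K) (g : Matrix n n K)
    (p : MvPolynomial (n × n) K) :
    pev (g.map τ) (MvPolynomial.map (τ : K →+* K) p) = τ (pev g p) := by
  induction p using MvPolynomial.induction_on with
  | C c => simp [pev]
  | add p q hp hq => rw [map_add, map_add, hp, hq, map_add, map_add]
  | mul_X p ij hp =>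
    rw [map_mul, map_mul, hp, map_mul, map_mul, MvPolynomial.map_X, pev_X, pev_X]
    rfl

/-- sets of zeros are stable under automorphisms of the field -/
theorem zeros_aut {I : Set (MvPolynomial (n × n) ℚ)} {K : Type*} [Field K] [CharZero K] (τ : K ≃+* K)
    {g : Matrix n n K} (hg : g ∈ zeros I K) : g.map τ ∈ zeros I K := by
  obtain ⟨h1, h2⟩ := hg
  refine ⟨?_, ?_⟩
  · have h3 := h1.map (τ : K →+* K)
    rw [RingHom.map_det, RingHom.mapMatrix_apply] at h3
    exact h3
  · intro p hp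
    have h3 : pev (g.map τ) p = τ (pev g p) := pev_hom (τ : K →+* K) g p
    rw [h3, h2 p hp, map_zero]

/-- the Mumford-Tate group is stable under automorphisms of the field -/
theorem mt_aut {J : Matrix n n ℝ} {K : Type*} [Field K] [CharZero K] (τ : K ≃+* K)
    {g : Matrix n n K} (hg : g ∈ mumfordTate J K) : g.map τ ∈ mumfordTate J K :=
  fun I hI hc => zeros_aut τ (hg I hI hc)

theorem mt_unit {J : Matrix n n ℝ} (hJ : J * J = -1) {K : Type*} [Field K] [CharZero K]
    {g : Matrix n n K} (hg : g ∈ mumfordTate J K) : IsUnit g.det := by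
  refine (hg ∅ ⟨?_, ?_, ?_⟩ ?_).1
  · exact ⟨by simp, by simp⟩
  · intro g hg h hh
    exact ⟨by rw [det_mul]; exact hg.1.mul hh.1, by simp⟩
  · intro g hg
    exact ⟨(isUnit_nonsing_inv_det_iff).mpr hg.1, by simp⟩
  · intro a b hab
    exact ⟨circ_unit hJ _ ⟨a, b, hab, rfl⟩, by simp⟩

theorem mt_one {J : Matrix n n ℝ} : (1 : Matrix n n ℂ) ∈ mumfordTate J ℂ :=
  fun _ hI _ => hI.1

theorem mt_mul {J : Matrix n n ℝ} :
    ∀ a ∈ mumfordTate J ℂ, ∀ b ∈ mumfordTate J ℂ, a * b ∈ mumfordTate J ℂ :=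
  fun a ha b hb I hI hc => hI.2.1 a (ha I hI hc) b (hb I hI hc)

theorem mt_inv {J : Matrix n n ℝ} : ∀ a ∈ mumfordTate J ℂ, a⁻¹ ∈ mumfordTate J ℂ :=
  fun a ha I hI hc => hI.2.2 a (ha I hI hc)

theorem map_symm {K : Type*} [Field K] (τ : K ≃+* K) {m m' : Type*} (g : Matrix m m' K) :
    (g.map τ.symm).map τ = g := by
  ext i j; simp

theorem cocharSet_aut {J : Matrix n n ℝ} {K : Type*} [Field K] [CharZero K] (τ : K ≃+* K)
    {g : Matrix n n K} (hg : g ∈ cocharSet (mumfordTate J K)) :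
    g.map τ ∈ cocharSet (mumfordTate J K) := by
  obtain ⟨P, t, ⟨hP, hPt⟩, ht, rfl⟩ := hg
  have e1 : ∀ t : K, (P + t • (1 - P)).map τ = P.map τ + τ t • (1 - P.map τ) := by
    intro t
    ext i j
    simp only [Matrix.map_apply, Matrix.add_apply, Matrix.smul_apply, Matrix.sub_apply, smul_eq_mul,
      map_add, map_mul, map_sub, Matrix.one_apply]
    split_ifs <;> simp
  refine ⟨P.map τ, τ t, ⟨?_, ?_⟩, ?_, e1 t⟩
  · have h1 : (P * P).map τ = P.map τ * P.map τ := Matrix.map_mul (f := (τ : K →+* K))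
    rw [← h1, hP]
  · intro u hu
    have h1 := mt_aut τ (hPt (τ.symm u) (by
      intro h0
      apply hu
      rw [← τ.apply_symm_apply u, h0, map_zero]))
    rw [e1, RingEquiv.apply_symm_apply] at h1
    exact h1
  · intro h0
    apply ht
    exact τ.injective (by rw [h0, map_zero])

theorem closure_aut {J : Matrix n n ℝ} {K : Type*} [Field K] [CharZero K] (τ : K ≃+* K)
    {g : Matrix n n K} (hg : g ∈ Submonoid.closure (cocharSet (mumfordTate J K))) :
    g.map τ ∈ Submonoid.closure (cocharSet (mumfordTate J K)) := by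
  induction hg using Submonoid.closure_induction with
  | mem x hx => exact Submonoid.subset_closure (cocharSet_aut τ hx)
  | one =>
    have : (1 : Matrix n n K).map τ = 1 := Matrix.map_one _ (map_zero τ) (map_one τ)
    rw [this]; exact Submonoid.one_mem _
  | mul x y _ _ hx hy =>
    have : (x * y).map τ = x.map τ * y.map τ := Matrix.map_mul (f := (τ : K →+* K))
    rw [this]; exact Submonoid.mul_mem _ hx hy

section complex

/-- the complex matrix of `J` -/
noncomputable def cJ (J : Matrix n n ℝ) : Matrix n n ℂ := J.map (algebraMap ℝ ℂ)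

theorem cJ_sq {J : Matrix n n ℝ} (hJ : J * J = -1) : cJ J * cJ J = -1 := by
  unfold cJ
  rw [← Matrix.map_mul, hJ]
  ext i j
  rw [Matrix.map_apply, Matrix.neg_apply, Matrix.neg_apply, map_neg, Matrix.one_apply,
    Matrix.one_apply]
  split_ifs <;> simp

theorem map_circ (J : Matrix n n ℝ) (a b : ℝ) :
    (a • (1 : Matrix n n ℝ) + b • J).map (algebraMap ℝ ℂ) =
      ((a : ℂ)) • (1 : Matrix n n ℂ) + ((b : ℂ)) • cJ J := by
  ext i j
  simp only [cJ, Matrix.map_apply, Matrix.add_apply, Matrix.smul_apply, smul_eq_mul, map_add, map_mul,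
    Matrix.one_apply]
  split_ifs <;> simp

/-- rational polynomials vanishing on the matrices `a + b J` vanish on the complex ones -/
theorem circ_complex {J : Matrix n n ℝ} {p : MvPolynomial (n × n) ℚ}
    (hp : ∀ s ∈ circ J, pev s p = 0) (a b : ℂ) : pev (a • (1 : Matrix n n ℂ) + b • cJ J) p = 0 := by
  obtain ⟨q, hq⟩ : ∃ q : MvPolynomial (n × n) ℂ, q = MvPolynomial.map (algebraMap ℚ ℂ) p := ⟨_, rfl⟩
  have e0 : ∀ M : Matrix n n ℂ, pev M p = pev M q := by
    intro M; rw [hq, pev_map]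
  have h0 : ∀ x y : ℝ, y ≠ 0 → pev ((x : ℂ) • (1 : Matrix n n ℂ) + (y : ℂ) • cJ J) p = 0 := by
    intro x y hy
    have h1 := hp _ ⟨x, y, fun h => hy h.2, rfl⟩
    have h2 := pev_hom (algebraMap ℝ ℂ) (x • (1 : Matrix n n ℝ) + y • J) p
    rw [h1, map_zero, map_circ] at h2
    exact h2
  have h1 : ∀ (x : ℂ) (y : ℝ), y ≠ 0 → pev (x • (1 : Matrix n n ℂ) + (y : ℂ) • cJ J) p = 0 := by
    intro x y hy
    have h2 : cev (lin ((y : ℂ) • cJ J) (1 : Matrix n n ℂ)) q = 0 := by
      apply Polynomial.eq_zero_of_infinite_isRoot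
      apply Set.infinite_of_injective_forall_mem (f := fun x : ℝ => (x : ℂ))
        Complex.ofReal_injective
      intro x
      change Polynomial.eval _ _ = 0
      rw [cev_eval, lin_eval, ← e0, add_comm]
      exact h0 x y hy
    rw [e0, add_comm, ← lin_eval, ← cev_eval, h2, Polynomial.eval_zero]
  have h2 : cev (lin (a • (1 : Matrix n n ℂ)) (cJ J)) q = 0 := by
    apply Polynomial.eq_zero_of_infinite_isRoot
    apply Set.infinite_of_injective_forall_mem (f := fun k : ℕ => ((k : ℂ) + 1))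
    · intro x y hxy
      exact Nat.cast_injective (add_right_cancel hxy)
    · intro k
      change Polynomial.eval _ _ = 0
      rw [cev_eval, lin_eval, ← e0]
      have h3 := h1 a ((k : ℝ) + 1) (by positivity)
      push_cast at h3
      exact h3
  rw [e0, ← lin_eval, ← cev_eval, h2, Polynomial.eval_zero]

theorem idem_det {K : Type*} [Field K] {P : Matrix n n K} (hP : P * P = P) {t : K} (ht : t ≠ 0) :
    IsUnit (P + t • (1 - P)).det := by
  have hQQ : (1 - P) * (1 - P) = 1 - P := by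
    rw [sub_mul, one_mul, mul_sub, mul_one, hP]; abel
  have hPQ : P * (1 - P) = 0 := by rw [mul_sub, mul_one, hP, sub_self]
  have hQP : (1 - P) * P = 0 := by rw [sub_mul, one_mul, hP, sub_self]
  have hinv : (P + t • (1 - P)) * (P + t⁻¹ • (1 - P)) = 1 := by
    rw [add_mul, mul_add, mul_add, hP, mul_smul_comm, hPQ, smul_mul_assoc, hQP, smul_mul_smul_comm,
      hQQ, mul_inv_cancel₀ ht, smul_zero, smul_zero, one_smul]
    abel
  have h2 := congrArg det hinv
  rw [det_mul, det_one] at h2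
  exact IsUnit.of_mul_eq_one _ h2

/-- the Hodge cocharacters -/
theorem hodge_cochar {J : Matrix n n ℝ} (hJ : J * J = -1) (u : ℂ) (hu : u * u = -1) :
    IsCochar (mumfordTate J ℂ) ((1 / 2 : ℂ) • ((1 : Matrix n n ℂ) + u • cJ J)) := by
  have hJ2 := cJ_sq hJ
  obtain ⟨J', hJ'⟩ : ∃ J', J' = cJ J := ⟨_, rfl⟩
  have hid : ((1 / 2 : ℂ) • ((1 : Matrix n n ℂ) + u • cJ J)) * ((1 / 2 : ℂ) • (1 + u • cJ J)) =
      (1 / 2 : ℂ) • (1 + u • cJ J) := by
    rw [← hJ'] at hJ2 ⊢
    have h1 : ((1 : Matrix n n ℂ) + u • J') * (1 + u • J') = (2 : ℂ) • (1 + u • J') := by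
      have h2 : (u • J') * (u • J') = 1 := by
        rw [smul_mul_smul_comm, hJ2, hu]; simp
      rw [mul_add, add_mul, add_mul, h2, one_mul, one_mul, mul_one]
      module
    rw [smul_mul_smul_comm, h1, smul_smul]
    norm_num
  refine ⟨hid, ?_⟩
  intro t ht I hI hI2
  refine ⟨idem_det hid ht, ?_⟩
  intro p hp
  have h1 := circ_complex (J := J) (p := p) (by
    rintro _ ⟨a, b, hab, rfl⟩
    exact (hI2 a b hab).2 p hp) ((1 + t) / 2) (u * (1 - t) / 2)
  have h2 : ((1 + t) / 2) • (1 : Matrix n n ℂ) + (u * (1 - t) / 2) • cJ J =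
      (1 / 2 : ℂ) • ((1 : Matrix n n ℂ) + u • cJ J) + t • (1 - (1 / 2 : ℂ) • (1 + u • cJ J)) := by
    module
  rw [← h2]
  exact h1

/-- the matrices `a + b J` are products of values of the Hodge cocharacters -/
theorem circ_mem {J : Matrix n n ℝ} (hJ : J * J = -1) {s : Matrix n n ℝ} (hs : s ∈ circ J) :
    s.map (algebraMap ℝ ℂ) ∈ Submonoid.closure (cocharSet (mumfordTate J ℂ)) := by
  obtain ⟨a, b, hab, rfl⟩ := hs
  rw [map_circ]
  have hI : Complex.I * Complex.I = -1 := Complex.I_mul_I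
  have hI' : (-Complex.I) * (-Complex.I) = -1 := by rw [neg_mul_neg, hI]
  have h1 := hodge_cochar hJ Complex.I hI
  have h2 := hodge_cochar hJ (-Complex.I) hI'
  have hz : ∀ ε : ℂ, ε * ε = -1 → (a : ℂ) + ε * b ≠ 0 := by
    intro ε hε h
    have h3 : (a : ℂ) * a + b * b = 0 := by
      have h4 : (a : ℂ) = - (ε * b) := eq_neg_of_add_eq_zero_left h
      calc (a : ℂ) * a + b * b = (- (ε * b)) * (-(ε * b)) + b * b := by rw [← h4]
        _ = (ε * ε + 1) * (b * b) := by ring
        _ = 0 := by rw [hε]; ring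
    have h5 : a * a + b * b = 0 := by exact_mod_cast h3
    apply hab
    constructor
    · nlinarith [mul_self_nonneg a, mul_self_nonneg b]
    · nlinarith [mul_self_nonneg a, mul_self_nonneg b]
  have hJ2 := cJ_sq hJ
  obtain ⟨J', hJ'⟩ : ∃ J', J' = cJ J := ⟨_, rfl⟩
  have h3 : (a : ℂ) • (1 : Matrix n n ℂ) + (b : ℂ) • cJ J =
      ((1 / 2 : ℂ) • ((1 : Matrix n n ℂ) + Complex.I • cJ J) +
        ((a : ℂ) + Complex.I * b) • (1 - (1 / 2 : ℂ) • (1 + Complex.I • cJ J))) *
      ((1 / 2 : ℂ) • ((1 : Matrix n n ℂ) + (-Complex.I) • cJ J) +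
        ((a : ℂ) + (-Complex.I) * b) • (1 - (1 / 2 : ℂ) • (1 + (-Complex.I) • cJ J))) := by
    rw [← hJ'] at hJ2 ⊢
    have e1 : (1 / 2 : ℂ) • ((1 : Matrix n n ℂ) + Complex.I • J') +
        ((a : ℂ) + Complex.I * b) • (1 - (1 / 2 : ℂ) • (1 + Complex.I • J')) =
        ((1 + ((a : ℂ) + Complex.I * b)) / 2) • 1 +
          (Complex.I * (1 - ((a : ℂ) + Complex.I * b)) / 2) • J' := by module
    have e2 : (1 / 2 : ℂ) • ((1 : Matrix n n ℂ) + (-Complex.I) • J') +
        ((a : ℂ) + (-Complex.I) * b) • (1 - (1 / 2 : ℂ) • (1 + (-Complex.I) • J')) =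
        ((1 + ((a : ℂ) + (-Complex.I) * b)) / 2) • 1 +
          ((-Complex.I) * (1 - ((a : ℂ) + (-Complex.I) * b)) / 2) • J' := by module
    rw [e1, e2]
    simp only [mul_add, add_mul, smul_mul_smul_comm, one_mul, mul_one, hJ2, smul_neg]
    have hI2 : Complex.I ^ 2 = -1 := Complex.I_sq
    have e3 : ((1 + ((a : ℂ) + Complex.I * b)) / 2) * ((1 + ((a : ℂ) + (-Complex.I) * b)) / 2) -
        (Complex.I * (1 - ((a : ℂ) + Complex.I * b)) / 2) *
          ((-Complex.I) * (1 - ((a : ℂ) + (-Complex.I) * b)) / 2) = a := by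
      ring_nf
      rw [show Complex.I ^ 4 = 1 by rw [show (4 : ℕ) = 2 * 2 from rfl, pow_mul, hI2]; norm_num, hI2]
      ring
    have e4 : ((1 + ((a : ℂ) + Complex.I * b)) / 2) *
          ((-Complex.I) * (1 - ((a : ℂ) + (-Complex.I) * b)) / 2) +
        (Complex.I * (1 - ((a : ℂ) + Complex.I * b)) / 2) * ((1 + ((a : ℂ) + (-Complex.I) * b)) / 2) =
        b := by
      ring_nf
      rw [hI2]
      ring
    obtain ⟨x1, hx1⟩ : ∃ x, x = (1 + ((a : ℂ) + Complex.I * b)) / 2 := ⟨_, rfl⟩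
    obtain ⟨y1, hy1⟩ : ∃ x, x = Complex.I * (1 - ((a : ℂ) + Complex.I * b)) / 2 := ⟨_, rfl⟩
    obtain ⟨x2, hx2⟩ : ∃ x, x = (1 + ((a : ℂ) + (-Complex.I) * b)) / 2 := ⟨_, rfl⟩
    obtain ⟨y2, hy2⟩ : ∃ x, x = (-Complex.I) * (1 - ((a : ℂ) + (-Complex.I) * b)) / 2 := ⟨_, rfl⟩
    rw [← hx1, ← hy1, ← hx2, ← hy2] at e3 e4 ⊢
    rw [← e3, ← e4]
    module
  rw [h3]
  exact Submonoid.mul_mem _ (Submonoid.subset_closure ⟨_, _, h1, hz _ hI, rfl⟩)
    (Submonoid.subset_closure ⟨_, _, h2, hz _ hI', rfl⟩)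

theorem closure_le {G : Set (Matrix n n ℂ)} (hone : 1 ∈ G) (hmul : ∀ a ∈ G, ∀ b ∈ G, a * b ∈ G)
    {g : Matrix n n ℂ} (hg : g ∈ Submonoid.closure (cocharSet G)) : g ∈ G := by
  induction hg using Submonoid.closure_induction with
  | mem x hx =>
    obtain ⟨P, t, hP, ht, rfl⟩ := hx
    exact hP.2 t ht
  | one => exact hone
  | mul x y _ _ hx hy => exact hmul _ hx _ hy

theorem lsub_comp {K : Type*} [Field K] (A B : Matrix n n K) (p : MvPolynomial (n × n) K) :
    lsub A (lsub B p) = lsub (B * A) p := by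
  have h : (lsub A).comp (lsub B) = lsub (B * A) := by
    apply MvPolynomial.algHom_ext
    intro ij
    simp only [AlgHom.comp_apply, lsub, MvPolynomial.aeval_X, map_sum, map_mul]
    have e : ∀ k, MvPolynomial.aeval (fun ij : n × n => ∑ k, MvPolynomial.C (A ij.1 k) *
        (MvPolynomial.X (k, ij.2) : MvPolynomial (n × n) K)) (MvPolynomial.C (B ij.1 k)) *
        ∑ l, MvPolynomial.C (A k l) * (MvPolynomial.X (l, ij.2) : MvPolynomial (n × n) K) =
        ∑ l, MvPolynomial.C (B ij.1 k * A k l) * MvPolynomial.X (l, ij.2) := by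
      intro k
      rw [MvPolynomial.aeval_C, MvPolynomial.algebraMap_eq, Finset.mul_sum]
      apply Finset.sum_congr rfl
      intro l _
      rw [map_mul]; ring
    rw [Finset.sum_congr rfl (fun k _ => e k), Finset.sum_comm]
    apply Finset.sum_congr rfl
    intro l _
    rw [← Finset.sum_mul, ← map_sum, Matrix.mul_apply]
  rw [← h]; rfl

theorem lsub_one {K : Type*} [Field K] (p : MvPolynomial (n × n) K) :
    lsub (1 : Matrix n n K) p = p := by
  have h : lsub (1 : Matrix n n K) = AlgHom.id K _ := by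
    apply MvPolynomial.algHom_ext
    intro ij
    simp [lsub, Matrix.one_apply]
  rw [h]; rfl

/-- the vanishing ideal -/
def vanI {K : Type*} [Field K] (T : Set (Matrix n n K)) : Ideal (MvPolynomial (n × n) K) where
  carrier := {p | ∀ t ∈ T, pev t p = 0}
  add_mem' := by
    intro a b ha hb t ht
    rw [map_add, ha t ht, hb t ht, add_zero]
  zero_mem' := by intro t _; rw [map_zero]
  smul_mem' := by
    intro c a ha t ht
    rw [smul_eq_mul, map_mul, ha t ht, mul_zero]

theorem mem_vanI {K : Type*} [Field K] {T : Set (Matrix n n K)} {p : MvPolynomial (n × n) K} :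
    p ∈ vanI T ↔ ∀ t ∈ T, pev t p = 0 := Iff.rfl

theorem chain_stab {R : Type*} [CommRing R] [IsNoetherianRing R] (J : ℕ → Ideal R)
    (h : ∀ k, J k ≤ J (k + 1)) : ∃ k, J k = J (k + 1) := by
  obtain ⟨k, hk⟩ := monotone_stabilizes_iff_noetherian.mpr
    (inferInstance : IsNoetherian R R) ⟨J, monotone_nat_of_le_succ h⟩
  exact ⟨k, hk (k + 1) (Nat.le_succ k)⟩

/-- A closed monoid of invertible matrices is a group. -/
theorem zcl_inv {K : Type*} [Field K] {T : Set (Matrix n n K)} (hone : 1 ∈ T)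
    (hT : ∀ a ∈ T, ∀ b ∈ T, a * b ∈ T) (hu : ∀ a ∈ T, IsUnit a.det) {A : Matrix n n K}
    (hA : A ∈ zcl T) : A⁻¹ ∈ zcl T := by
  refine ⟨(isUnit_nonsing_inv_det_iff).mpr hA.1, ?_⟩
  have hAA : A⁻¹ * A = 1 := nonsing_inv_mul A hA.1
  have hAA' : A * A⁻¹ = 1 := mul_nonsing_inv A hA.1
  obtain ⟨B, hB⟩ : ∃ B, B = A⁻¹ := ⟨_, rfl⟩
  rw [← hB] at hAA hAA' ⊢
  obtain ⟨pw, hpw⟩ : ∃ pw : ℕ → Matrix n n K, pw = fun k => A ^ k := ⟨_, rfl⟩
  obtain ⟨qw, hqw⟩ : ∃ qw : ℕ → Matrix n n K, qw = fun k => B ^ k := ⟨_, rfl⟩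
  have hcomm : Commute B A := by rw [Commute, SemiconjBy, hAA, hAA']
  have hp1 : ∀ k, pw (k + 1) = pw k * A := by intro k; rw [hpw]; exact pow_succ A k
  have hq1 : ∀ k, qw (k + 1) * pw (k + 1) = 1 := by
    intro k; rw [hpw, hqw]; simp only; rw [← hcomm.mul_pow, hAA, one_pow]
  have hq2 : ∀ k, qw (k + 1) * pw k = B := by
    intro k; rw [hpw, hqw]; simp only
    rw [pow_succ', mul_assoc, ← hcomm.mul_pow, hAA, one_pow, mul_one]
  have hstep : ∀ p ∈ vanI T, lsub A p ∈ vanI T := by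
    intro p hp
    rw [mem_vanI] at hp ⊢
    intro t ht
    rw [pev_lsub]
    exact (zcl_mul hT hA (subset_zcl hu ht)).2 p hp
  obtain ⟨J, hJ⟩ : ∃ J : ℕ → Ideal (MvPolynomial (n × n) K), ∀ k p, p ∈ J k ↔
      lsub (pw k) p ∈ vanI T := ⟨fun k => (vanI T).comap (lsub (pw k)), fun k p => Ideal.mem_comap⟩
  obtain ⟨k, hk⟩ := chain_stab J (by
    intro k p hp
    rw [hJ] at hp ⊢
    have h2 := hstep _ hp
    rw [lsub_comp, ← hp1] at h2
    exact h2)
  intro p hp
  have h2 : lsub (qw (k + 1)) p ∈ J (k + 1) := by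
    rw [hJ, lsub_comp, hq1, lsub_one, mem_vanI]
    exact hp
  rw [← hk, hJ, lsub_comp, hq2, mem_vanI] at h2
  have h3 := h2 1 hone
  rw [pev_lsub, mul_one] at h3
  exact h3

/-- The Mumford-Tate group is generated by its cocharacters. -/
theorem mt_gen {J : Matrix n n ℝ} (hJ : J * J = -1) : CocharGen (mumfordTate J ℂ) := by
  classical
  obtain ⟨H, hH⟩ : ∃ H : Submonoid (Matrix n n ℂ), H = Submonoid.closure (cocharSet (mumfordTate J ℂ)) :=
    ⟨_, rfl⟩
  have hHu : ∀ s ∈ H, IsUnit s.det := by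
    intro s hs
    rw [hH] at hs
    exact mt_unit hJ (closure_le mt_one mt_mul hs)
  let W : Submodule ℂ (MvPolynomial (n × n) ℂ) :=
    { carrier := {p | ∀ s ∈ H, pev s p = 0}
      add_mem' := by
        intro p q hp hq s hs
        rw [map_add, hp s hs, hq s hs, add_zero]
      zero_mem' := by intro s _; rw [map_zero]
      smul_mem' := by
        intro c p hp s hs
        rw [map_smul, hp s hs, smul_zero] }
  let c : MvPolynomial (n × n) ℂ →ₗ[ℂ] ((n × n →₀ ℕ) →₀ ℂ) :=
    (MvPolynomial.basisMonomials (n × n) ℂ).repr.toLinearMap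
  have hcc : ∀ p m, c p m = MvPolynomial.coeff m p := fun p m => rfl
  have hc : Function.Injective c := (MvPolynomial.basisMonomials (n × n) ℂ).repr.injective
  have hdes := descent c hc W (by
    intro τ w hw
    refine ⟨MvPolynomial.map (τ : ℂ →+* ℂ) w, ?_, ?_⟩
    · intro s hs
      have h1 := pev_twist τ (s.map τ.symm) w
      rw [map_symm] at h1
      rw [hH] at hs
      rw [h1, hw _ (by rw [hH]; exact closure_aut τ.symm hs), map_zero]
    · intro i
      rw [hcc, hcc, MvPolynomial.coeff_map]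
      rfl)
  -- the rational equations of the closure of `H`
  obtain ⟨I, hI⟩ : ∃ I : Set (MvPolynomial (n × n) ℚ), I = {p | ∀ s ∈ H, pev s p = 0} := ⟨_, rfl⟩
  have hzero : ∀ g : Matrix n n ℂ, g ∈ zeros I ℂ ↔ g ∈ zcl (H : Set (Matrix n n ℂ)) := by
    intro g
    constructor
    · rintro ⟨hg, hgI⟩
      refine ⟨hg, ?_⟩
      intro p hp
      have h1 := hdes p hp
      have h2 : ∀ q ∈ Submodule.span ℂ {v | v ∈ W ∧ ∀ i, c v i ∈ Set.range (algebraMap ℚ ℂ)},
          pev g q = 0 := by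
        intro q hq
        induction hq using Submodule.span_induction with
        | mem q hq =>
          obtain ⟨hqW, hqr⟩ := hq
          choose f hf using hqr
          obtain ⟨q₀, hq₀⟩ : ∃ q₀ : MvPolynomial (n × n) ℚ,
              q₀ = ∑ m ∈ q.support, MvPolynomial.monomial m (f m) := ⟨_, rfl⟩
          have e1 : MvPolynomial.map (algebraMap ℚ ℂ) q₀ = q := by
            ext m
            rw [MvPolynomial.coeff_map, hq₀, MvPolynomial.coeff_sum]
            simp only [MvPolynomial.coeff_monomial]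
            rw [Finset.sum_ite_eq' q.support m]
            split_ifs with h
            · rw [hf, hcc]
            · rw [MvPolynomial.notMem_support_iff.mp h, map_zero]
          rw [← e1, pev_map]
          apply hgI
          rw [hI]
          intro s hs
          rw [← pev_map (K := ℂ), e1]
          exact hqW s hs
        | zero => rw [map_zero]
        | add x y _ _ hx hy => rw [map_add, hx, hy, add_zero]
        | smul a x _ hx => rw [map_smul, hx, smul_zero]
      exact h2 p h1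
    · rintro ⟨hg, hgp⟩
      refine ⟨hg, ?_⟩
      intro p hp
      rw [hI] at hp
      rw [← pev_map (K := ℂ)]
      apply hgp
      intro s hs
      rw [pev_map]
      exact hp s hs
  have hgroup : IsAlgSubgroup I := by
    refine ⟨?_, ?_, ?_⟩
    · rw [hzero]
      exact subset_zcl hHu H.one_mem
    · intro g hg h hh
      rw [hzero] at hg hh ⊢
      exact zcl_mul (fun a ha b hb => H.mul_mem ha hb) hg hh
    · intro g hg
      rw [hzero] at hg ⊢
      exact zcl_inv H.one_mem (fun a ha b hb => H.mul_mem ha hb) hHu hg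
  have hcirc : ∀ a b : ℝ, ¬ (a = 0 ∧ b = 0) → a • (1 : Matrix n n ℝ) + b • J ∈ zeros I ℝ := by
    intro a b hab
    have hs : a • (1 : Matrix n n ℝ) + b • J ∈ circ J := ⟨a, b, hab, rfl⟩
    refine ⟨circ_unit hJ _ hs, ?_⟩
    intro p hp
    rw [hI] at hp
    have h3 := hp _ (by rw [hH]; exact circ_mem hJ hs)
    rw [pev_hom] at h3
    exact (map_eq_zero (algebraMap ℝ ℂ)).mp h3
  intro p hp g hg
  have h1 := hg I hgroup hcirc
  rw [hzero] at h1
  exact h1.2 p (fun s hs => by rw [hH] at hs; exact hp s hs)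

end complex

end Pool.Agent.Helper3_MT
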