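import Mathlib

/-! The automorphisms of an algebraically closed field of characteristic zero fix only the rational
numbers; subspaces stable under all automorphisms are spanned by rational vectors. -/

set_option autoImplicit false
set_option linter.unusedSectionVars false

namespace Pool.Agent.Helper3_MT

open MvPolynomial

/-- an element fixed by all automorphisms is algebraic -/
theorem alg_of_fixed {K : Type*} [Field K] [CharZero K] [IsAlgClosed K] {x : K}
    (hx : ∀ τ : K ≃+* K, τ x = x) : IsAlgebraic ℚ x := by
  classical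
  by_contra hcon
  have h0 : AlgebraicIndepOn ℚ id ({x} : Set K) := by
    have : AlgebraicIndependent ℚ (fun i : ({x} : Set K) => id (i : K)) := by
      rw [algebraicIndependent_unique_type_iff]
      have : ((default : ({x} : Set K)) : K) = x := (default : ({x} : Set K)).2
      simp only [id]
      rw [this]
      exact hcon
    exact this
  obtain ⟨t, hxt, ht⟩ := exists_isTranscendenceBasis_superset h0
  have hmem : x ∈ t := hxt rfl
  let _ := IsAlgClosed.isAlgClosure_of_transcendence_basis _ ht
  let i₀ : t := ⟨x, hmem⟩
  let f : MvPolynomial t ℚ →ₐ[ℚ] MvPolynomial t ℚ := aeval (fun i => if i = i₀ then X i + 1 else X i)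
  let g : MvPolynomial t ℚ →ₐ[ℚ] MvPolynomial t ℚ := aeval (fun i => if i = i₀ then X i - 1 else X i)
  have hfg : f.comp g = AlgHom.id _ _ := by
    apply MvPolynomial.algHom_ext
    intro i
    simp only [f, g, AlgHom.comp_apply, aeval_X, AlgHom.id_apply]
    by_cases hi : i = i₀
    · simp [hi]
    · simp [hi]
  have hgf : g.comp f = AlgHom.id _ _ := by
    apply MvPolynomial.algHom_ext
    intro i
    simp only [f, g, AlgHom.comp_apply, aeval_X, AlgHom.id_apply]
    by_cases hi : i = i₀
    · simp [hi]
    · simp [hi]
  let e₀ : MvPolynomial t ℚ ≃ₐ[ℚ] MvPolynomial t ℚ := AlgEquiv.ofAlgHom f g hfg hgf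
  let e : Algebra.adjoin ℚ (Set.range ((↑) : t → K)) ≃+* Algebra.adjoin ℚ (Set.range ((↑) : t → K)) :=
    (ht.1.aevalEquiv.symm.toRingEquiv.trans e₀.toRingEquiv).trans ht.1.aevalEquiv.toRingEquiv
  let τ : K ≃+* K := IsAlgClosure.equivOfEquiv K K e
  have h1 : τ (algebraMap (Algebra.adjoin ℚ (Set.range ((↑) : t → K))) K (ht.1.aevalEquiv (X i₀))) =
      algebraMap _ K (e (ht.1.aevalEquiv (X i₀))) := IsAlgClosure.equivOfEquiv_algebraMap K K e _
  have h2 : algebraMap (Algebra.adjoin ℚ (Set.range ((↑) : t → K))) K (ht.1.aevalEquiv (X i₀)) = x := by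
    change ((ht.1.aevalEquiv (X i₀) : Algebra.adjoin ℚ (Set.range ((↑) : t → K))) : K) = x
    rw [AlgebraicIndependent.aevalEquiv_apply_coe]
    simp [i₀]
  have h3 : algebraMap (Algebra.adjoin ℚ (Set.range ((↑) : t → K))) K (e (ht.1.aevalEquiv (X i₀))) =
      x + 1 := by
    have h4 : e (ht.1.aevalEquiv (X i₀)) = ht.1.aevalEquiv (X i₀ + 1) := by
      change ht.1.aevalEquiv (f (ht.1.aevalEquiv.symm (ht.1.aevalEquiv (X i₀)))) = _
      rw [AlgEquiv.symm_apply_apply]
      congr 1
      simp [f]
    rw [h4, map_add, map_add, h2, map_one, map_one]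
  rw [h2, h3, hx] at h1
  exact one_ne_zero (add_eq_left.mp h1.symm)

/-- an automorphism of the algebraic elements extends -/
theorem extend_aut {K : Type*} [Field K] [CharZero K] [IsAlgClosed K]
    (σ : algebraicClosure ℚ K ≃ₐ[ℚ] algebraicClosure ℚ K) :
    ∃ τ : K ≃+* K, ∀ y : algebraicClosure ℚ K, τ (y : K) = (σ y : K) := by
  classical
  obtain ⟨s, hs⟩ := exists_isTranscendenceBasis (algebraicClosure ℚ K) K
  let _ := IsAlgClosed.isAlgClosure_of_transcendence_basis _ hs
  let e₀ : MvPolynomial s (algebraicClosure ℚ K) ≃+* MvPolynomial s (algebraicClosure ℚ K) :=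
    MvPolynomial.mapEquiv s σ.toRingEquiv
  let e : Algebra.adjoin (algebraicClosure ℚ K) (Set.range ((↑) : s → K)) ≃+*
      Algebra.adjoin (algebraicClosure ℚ K) (Set.range ((↑) : s → K)) :=
    (hs.1.aevalEquiv.symm.toRingEquiv.trans e₀).trans hs.1.aevalEquiv.toRingEquiv
  refine ⟨IsAlgClosure.equivOfEquiv K K e, ?_⟩
  intro y
  have h1 := IsAlgClosure.equivOfEquiv_algebraMap K K e (hs.1.aevalEquiv (C y))
  have h2 : ∀ z : algebraicClosure ℚ K,
      algebraMap (Algebra.adjoin (algebraicClosure ℚ K) (Set.range ((↑) : s → K))) K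
        (hs.1.aevalEquiv (C z)) = (z : K) := by
    intro z
    change ((hs.1.aevalEquiv (C z) : Algebra.adjoin (algebraicClosure ℚ K)
      (Set.range ((↑) : s → K))) : K) = z
    rw [AlgebraicIndependent.aevalEquiv_apply_coe, aeval_C]
    rfl
  have h3 : e (hs.1.aevalEquiv (C y)) = hs.1.aevalEquiv (C (σ y)) := by
    change hs.1.aevalEquiv (e₀ (hs.1.aevalEquiv.symm (hs.1.aevalEquiv (C y)))) = _
    rw [AlgEquiv.symm_apply_apply]
    congr 1
    simp [e₀]
  rw [h2, h3, h2] at h1
  exact h1

/-- the fixed field of the automorphisms of an algebraically closed field of characteristic zero -/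
theorem rat_of_fixed {K : Type*} [Field K] [CharZero K] [IsAlgClosed K] {x : K}
    (hx : ∀ τ : K ≃+* K, τ x = x) : x ∈ Set.range (algebraMap ℚ K) := by
  have h1 : x ∈ algebraicClosure ℚ K := (mem_algebraicClosure_iff).mpr (alg_of_fixed hx)
  have h0 : IsAlgClosure ℚ (algebraicClosure ℚ K) := algebraicClosure.isAlgClosure ℚ K
  have h3 : IsGalois ℚ (algebraicClosure ℚ K) := IsAlgClosure.isGalois ℚ _
  have h2 : (⟨x, h1⟩ : algebraicClosure ℚ K) ∈ Set.range (algebraMap ℚ (algebraicClosure ℚ K)) := by
    rw [InfiniteGalois.mem_range_algebraMap_iff_fixed]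
    intro σ
    obtain ⟨τ, hτ⟩ := extend_aut σ
    apply Subtype.ext
    rw [← hτ ⟨x, h1⟩]
    exact hx τ
  obtain ⟨q, hq⟩ := h2
  refine ⟨q, ?_⟩
  have := congrArg (fun z : algebraicClosure ℚ K => (z : K)) hq
  exact this

/-- Subspaces stable under all automorphisms are spanned by their rational vectors. -/
theorem descent {K : Type*} [Field K] [CharZero K] [IsAlgClosed K] {V : Type*} [AddCommGroup V]
    [Module K V] {ι : Type*} (c : V →ₗ[K] (ι →₀ K)) (hc : Function.Injective c) (W : Submodule K V)
    (hW : ∀ τ : K ≃+* K, ∀ w ∈ W, ∃ w' ∈ W, ∀ i, c w' i = τ (c w i)) :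
    ∀ w ∈ W, w ∈ Submodule.span K {v | v ∈ W ∧ ∀ i, c v i ∈ Set.range (algebraMap ℚ K)} := by
  classical
  -- induction on the size of the support
  have key : ∀ m : ℕ, ∀ w ∈ W, (c w).support.card ≤ m →
      w ∈ Submodule.span K {v | v ∈ W ∧ ∀ i, c v i ∈ Set.range (algebraMap ℚ K)} := by
    intro m
    induction m with
    | zero =>
      intro w _ h
      have h1 : c w = 0 := Finsupp.support_eq_empty.mp (Finset.card_eq_zero.mp (Nat.le_zero.mp h))
      have h2 : w = 0 := hc (by rw [h1, map_zero])
      rw [h2]; exact Submodule.zero_mem _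
    | succ m ih =>
      intro w hw hm
      by_cases h0 : w = 0
      · rw [h0]; exact Submodule.zero_mem _
      -- a nonzero vector of minimal support inside the support of `w`
      have hex : ∃ k : ℕ, ∃ v ∈ W, v ≠ 0 ∧ (c v).support ⊆ (c w).support ∧ (c v).support.card = k :=
        ⟨_, w, hw, h0, Finset.Subset.refl _, rfl⟩
      obtain ⟨v, hv, hv0, hvs, hvk⟩ := Nat.find_spec hex
      have hmin : ∀ u ∈ W, (c u).support ⊆ (c w).support →
          (c u).support.card < (c v).support.card → u = 0 := by
        intro u hu hus huk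
        by_contra hu0
        rw [hvk] at huk
        exact Nat.find_min hex huk ⟨u, hu, hu0, hus, rfl⟩
      obtain ⟨i, hi⟩ : ∃ i, c v i ≠ 0 := by
        by_contra hcon
        push Not at hcon
        apply hv0
        apply hc
        rw [map_zero]
        exact Finsupp.ext hcon
      -- normalise
      obtain ⟨v', hv'⟩ : ∃ v', v' = (c v i)⁻¹ • v := ⟨_, rfl⟩
      have hv'W : v' ∈ W := by rw [hv']; exact W.smul_mem _ hv
      have hcv' : ∀ j, c v' j = (c v i)⁻¹ * c v j := by
        intro j; rw [hv', map_smul, Finsupp.smul_apply, smul_eq_mul]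
      have hi1 : c v' i = 1 := by rw [hcv', inv_mul_cancel₀ hi]
      have hv's : (c v').support = (c v).support := by
        ext j
        rw [Finsupp.mem_support_iff, Finsupp.mem_support_iff, hcv']
        constructor
        · intro h h1; exact h (by rw [h1, mul_zero])
        · intro h; exact mul_ne_zero (inv_ne_zero hi) h
      have hrat : ∀ j, c v' j ∈ Set.range (algebraMap ℚ K) := by
        intro j
        apply rat_of_fixed
        intro τ
        obtain ⟨w', hw', hw'c⟩ := hW τ v' hv'W
        have h1 : w' - v' = 0 := by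
          have hsub : (c (w' - v')).support ⊆ (c v).support.erase i := by
            intro k hk
            rw [Finsupp.mem_support_iff, map_sub, Finsupp.sub_apply, hw'c] at hk
            rw [Finset.mem_erase]
            constructor
            · rintro rfl
              rw [hi1, map_one, sub_self] at hk
              exact hk rfl
            · rw [← hv's, Finsupp.mem_support_iff]
              intro h2
              rw [h2, map_zero, sub_self] at hk
              exact hk rfl
          apply hmin _ (W.sub_mem hw' hv'W)
          · exact hsub.trans ((Finset.erase_subset _ _).trans hvs)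
          · apply lt_of_le_of_lt (Finset.card_le_card hsub)
            exact Finset.card_erase_lt_of_mem (Finsupp.mem_support_iff.mpr hi)
        rw [← hw'c, sub_eq_zero.mp h1]
      have h1 : w - c w i • v' ∈ Submodule.span K
          {v | v ∈ W ∧ ∀ i, c v i ∈ Set.range (algebraMap ℚ K)} := by
        apply ih _ (W.sub_mem hw (W.smul_mem _ hv'W))
        have hsub : (c (w - c w i • v')).support ⊆ (c w).support.erase i := by
          intro k hk
          rw [Finsupp.mem_support_iff, map_sub, map_smul, Finsupp.sub_apply, Finsupp.smul_apply,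
            smul_eq_mul] at hk
          rw [Finset.mem_erase]
          constructor
          · rintro rfl
            rw [hi1, mul_one, sub_self] at hk
            exact hk rfl
          · rw [Finsupp.mem_support_iff]
            intro h2
            rw [h2, zero_sub, neg_ne_zero] at hk
            have h3 : k ∈ (c v').support := by
              rw [Finsupp.mem_support_iff]
              intro h4
              rw [h4, mul_zero] at hk
              exact hk rfl
            rw [hv's] at h3
            exact (Finsupp.mem_support_iff.mp (hvs h3)) h2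
        have hmem : i ∈ (c w).support := hvs (Finsupp.mem_support_iff.mpr hi)
        have h2 := Finset.card_le_card hsub
        rw [Finset.card_erase_of_mem hmem] at h2
        omega
      have h2 : w = (w - c w i • v') + c w i • v' := by abel
      rw [h2]
      exact Submodule.add_mem _ h1 (Submodule.smul_mem _ _ (Submodule.subset_span ⟨hv'W, hrat⟩))
  intro w hw
  exact key _ w hw le_rfl

end Pool.Agent.Helper3_MT
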