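import Pool.Agent.Helper78_MT.Assembly

/-! Tensors of type (2,2), Hodge tensors, Tate tensors. -/

set_option autoImplicit false
set_option linter.unusedSectionVars false

namespace Pool.Agent.Helper3_MT

open Matrix Module Pool.Agent.Helper78_MT

variable {n : Type*} [Fintype n] [DecidableEq n]

/-- The tensor `T`, a linear map on matrices given by its own matrix, applied to the matrix `X`. -/
def act {F : Type*} [CommRing F] (T : Matrix (n × n) (n × n) F) (X : Matrix n n F) : Matrix n n F :=
  fun i j => ∑ p : n × n, T (i, j) p * X p.1 p.2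

/-- The tensor `T` is invariant under `g`: it commutes with the conjugation by `g`. -/
def Invariant {F : Type*} [CommRing F] (T : Matrix (n × n) (n × n) F) (g : Matrix n n F) : Prop :=
  ∀ X, act T (g * X * g⁻¹) = g * act T X * g⁻¹

/-- Tate tensors: invariant under the image of a subgroup of finite index. -/
def TateTensor {F Γ : Type*} [Field F] [Group Γ] (ρ : Γ →* GL n F)
    (T : Matrix (n × n) (n × n) F) : Prop :=
  ∃ Γ' : Subgroup Γ, Γ'.FiniteIndex ∧ ∀ γ ∈ Γ', Invariant T (ρ γ : Matrix n n F)

/-- Hodge tensors: rational, and invariant under the matrices `a + b J`. -/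
def HodgeTensor (J : Matrix n n ℝ) (T : Matrix (n × n) (n × n) ℚ) : Prop :=
  ∀ a b : ℝ, ¬ (a = 0 ∧ b = 0) → Invariant (T.map (algebraMap ℚ ℝ)) (a • 1 + b • J)

/-- The linear combinations over `F` of the Hodge tensors. -/
def hodgeSpan {F : Type*} [Field F] [CharZero F] (J : Matrix n n ℝ) :
    Submodule F (Matrix (n × n) (n × n) F) :=
  Submodule.span F {T | ∃ H : Matrix (n × n) (n × n) ℚ, HodgeTensor J H ∧ T = H.map (algebraMap ℚ F)}

/-- All Tate tensors are linear combinations of Hodge tensors. -/
def TateIsHodge {F Γ : Type*} [Field F] [CharZero F] [Group Γ] (J : Matrix n n ℝ) (ρ : Γ →* GL n F) :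
    Prop :=
  ∀ T, TateTensor ρ T → T ∈ hodgeSpan (F := F) J

/-- Some projector of `End V` onto the Lie algebra of the monodromy group is a linear combination of
Hodge tensors. -/
def LieIsHodge {F Γ : Type*} [Field F] [CharZero F] [Group Γ] (J : Matrix n n ℝ) (ρ : Γ →* GL n F) :
    Prop :=
  ∃ T ∈ hodgeSpan (F := F) J, (∀ X, act T X ∈ lieOf (monodromy ρ F)) ∧
    ∀ X ∈ lieOf (monodromy ρ F), act T X = X

/-- The properties, proved by Deligne; by Faltings (semisimplicity, with the theorem of Chevalley on
tensor products of semisimple representations); by Faltings (homomorphisms); by Serre, Sen and Pink;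
by Vasiu, Ullmo and Yafaev, of the representation on the first cohomology of an abelian variety over a
number field: up to finite index, the image is in the Mumford-Tate group; the conjugation on `End V` is
semisimple for the subgroups of finite index; the matrices commuting with a subgroup of finite index
are combinations of rational matrices commuting with `J`; the connected monodromy group is generated by
its cocharacters of weights zero and one; the center of the Lie algebra of the Mumford-Tate group lies
in the Lie algebra of the monodromy group. -/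
structure AbelianLike {F Γ : Type*} [Field F] [CharZero F] [Group Γ] (J : Matrix n n ℝ)
    (ρ : Γ →* GL n F) (K : Type*) [Field K] [CharZero K] [Algebra F K] : Prop where
  deligne : ∃ Γ₀ : Subgroup Γ, Γ₀.FiniteIndex ∧ ∀ γ ∈ Γ₀, (ρ γ : Matrix n n F) ∈ mumfordTate J F
  semisimple : ∀ Γ' : Subgroup Γ, Γ'.FiniteIndex → ∀ W : Submodule F (Matrix n n F),
    (∀ γ ∈ Γ', ∀ X ∈ W, (ρ γ : Matrix n n F) * X * (ρ γ : Matrix n n F)⁻¹ ∈ W) →
    ∃ W' : Submodule F (Matrix n n F), IsCompl W W' ∧
      ∀ γ ∈ Γ', ∀ X ∈ W', (ρ γ : Matrix n n F) * X * (ρ γ : Matrix n n F)⁻¹ ∈ W'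
  endomorphisms : ∀ Γ' : Subgroup Γ, Γ'.FiniteIndex → ∀ X : Matrix n n F,
    (∀ γ ∈ Γ', (ρ γ : Matrix n n F) * X = X * (ρ γ : Matrix n n F)) →
    X ∈ Submodule.span F {Z : Matrix n n F | ∃ Y : Matrix n n ℚ,
      Y.map (algebraMap ℚ ℝ) * J = J * Y.map (algebraMap ℚ ℝ) ∧ Z = Y.map (algebraMap ℚ F)}
  cochars : CocharGen (monodromy ρ K)
  center : ∀ X ∈ lieOf (mumfordTate J K), (∀ g ∈ mumfordTate J K, g * X = X * g) →
    X ∈ lieOf (monodromy ρ K)

end Pool.Agent.Helper3_MT
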