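import Pool.Agent.Helper3_MT.MT

/-! The Mumford-Tate conjecture and tensors of type (2,2). -/

set_option autoImplicit false
set_option linter.unusedSectionVars false

namespace Pool.Agent.Helper3_MT

open Matrix Module Pool.Agent.Helper78_MT

variable {n : Type*} [Fintype n] [DecidableEq n]

/-- rational tensors invariant under the Mumford-Tate group span all invariant tensors -/
theorem tens_descent {J : Matrix n n ℝ} (hJ : J * J = -1) (T : Matrix (n × n) (n × n) ℂ)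
    (hT : ∀ g ∈ mumfordTate J ℂ, Invariant T g) :
    T ∈ Submodule.span ℂ {T' : Matrix (n × n) (n × n) ℂ | ∃ H : Matrix (n × n) (n × n) ℚ,
      (∀ g ∈ mumfordTate J ℂ, Invariant (H.map (algebraMap ℚ ℂ)) g) ∧
        T' = H.map (algebraMap ℚ ℂ)} := by
  classical
  let W : Submodule ℂ (Matrix (n × n) (n × n) ℂ) :=
    { carrier := {T | ∀ g ∈ mumfordTate J ℂ, Invariant T g}
      add_mem' := by
        intro p q hp hq g hg
        exact inv_add (hp g hg) (hq g hg)
      zero_mem' := by intro g _; exact inv_zero g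
      smul_mem' := by
        intro c p hp g hg
        exact inv_smul c (hp g hg) }
  let c₀ : Matrix (n × n) (n × n) ℂ →ₗ[ℂ] ((n × n) × (n × n) → ℂ) :=
    { toFun := fun T p => T p.1 p.2
      map_add' := fun _ _ => rfl
      map_smul' := fun _ _ => rfl }
  let c : Matrix (n × n) (n × n) ℂ →ₗ[ℂ] ((n × n) × (n × n) →₀ ℂ) :=
    (Finsupp.linearEquivFunOnFinite ℂ ℂ ((n × n) × (n × n))).symm.toLinearMap ∘ₗ c₀
  have hcc : ∀ p m, c p m = p m.1 m.2 := fun p m => rfl
  have hc : Function.Injective c := by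
    intro a b hab
    ext i j
    have := congrArg (fun f : ((n × n) × (n × n) →₀ ℂ) => f (i, j)) hab
    exact this
  have hdes := descent c hc W (by
    intro τ w hw
    refine ⟨w.map τ, ?_, fun i => rfl⟩
    intro g hg
    rw [inv_iff (mt_unit hJ hg)]
    intro X
    have hg' := mt_aut τ.symm hg
    have h1 := (inv_iff (mt_unit hJ hg')).mp (hw _ hg') (X.map τ.symm)
    have h2 := congrArg (fun M : Matrix n n ℂ => M.map (τ : ℂ →+* ℂ)) h1
    simp only [Matrix.map_mul, map_act] at h2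
    have e1 : ∀ M : Matrix n n ℂ, (M.map τ.symm).map (τ : ℂ →+* ℂ) = M := fun M => map_symm τ M
    rw [e1, e1] at h2
    exact h2)
  have h1 := hdes T hT
  refine Submodule.span_mono ?_ h1
  rintro v ⟨hv, hvr⟩
  choose f hf using hvr
  have e1 : v = (Matrix.of (fun i j => f (i, j)) : Matrix (n × n) (n × n) ℚ).map (algebraMap ℚ ℂ) := by
    ext i j
    rw [Matrix.map_apply, Matrix.of_apply, hf, hcc]
  refine ⟨_, ?_, e1⟩
  rw [← e1]
  exact hv

/-- rational tensors invariant under the Mumford-Tate group are Hodge tensors -/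
theorem hodge_of_inv {J : Matrix n n ℝ} (hJ : J * J = -1) {H : Matrix (n × n) (n × n) ℚ}
    (hH : ∀ g ∈ mumfordTate J ℂ, Invariant (H.map (algebraMap ℚ ℂ)) g) : HodgeTensor J H := by
  intro a b hab
  have hs : a • 1 + b • J ∈ circ J := ⟨a, b, hab, rfl⟩
  have hu := circ_unit hJ _ hs
  have hm : (a • 1 + b • J : Matrix n n ℝ).map (algebraMap ℝ ℂ) ∈ mumfordTate J ℂ := by
    intro I hI hI2
    refine ⟨?_, ?_⟩
    · have h3 := hu.map (algebraMap ℝ ℂ)
      rw [RingHom.map_det, RingHom.mapMatrix_apply] at h3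
      exact h3
    · intro p hp
      rw [pev_hom, (hI2 a b hab).2 p hp, map_zero]
  rw [inv_iff hu]
  intro X
  have h1 := (inv_iff (mt_unit hJ hm)).mp (hH _ hm) (X.map (algebraMap ℝ ℂ))
  have e1 : H.map (algebraMap ℚ ℂ) = (H.map (algebraMap ℚ ℝ)).map (algebraMap ℝ ℂ) := by
    ext i j
    simp
  rw [e1] at h1
  rw [← Matrix.map_mul, ← Matrix.map_mul, ← map_act, ← map_act, ← Matrix.map_mul,
    ← Matrix.map_mul] at h1
  exact Matrix.map_injective (algebraMap ℝ ℂ).injective h1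

/-- combinations over the large field of rational matrices which are over the small field -/
theorem span_down {F K m : Type*} [Field F] [CharZero F] [Field K] [CharZero K] [Algebra F K]
    {𝓗 : Set (Matrix m m ℚ)} {T : Matrix m m F}
    (hT : T.map (algebraMap F K) ∈ Submodule.span K {T' : Matrix m m K |
      ∃ H ∈ 𝓗, T' = H.map (algebraMap ℚ K)}) :
    T ∈ Submodule.span F {T' : Matrix m m F | ∃ H ∈ 𝓗, T' = H.map (algebraMap ℚ F)} := by
  obtain ⟨φ, hφ⟩ := LinearMap.exists_leftInverse_of_injective (Algebra.linearMap F K)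
    (LinearMap.ker_eq_bot.mpr (algebraMap F K).injective)
  have hφ1 : ∀ x : F, φ (algebraMap F K x) = x := by
    intro x
    have := congrArg (fun f : F →ₗ[F] F => f x) hφ
    exact this
  have key : ∀ x ∈ Submodule.span K {T' : Matrix m m K | ∃ H ∈ 𝓗, T' = H.map (algebraMap ℚ K)},
      ∀ c : K, (c • x).map φ ∈
        Submodule.span F {T' : Matrix m m F | ∃ H ∈ 𝓗, T' = H.map (algebraMap ℚ F)} := by
    intro x hx
    induction hx using Submodule.span_induction with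
    | mem x hx =>
      obtain ⟨H, hH, rfl⟩ := hx
      intro c
      have e1 : (c • H.map (algebraMap ℚ K)).map φ = φ c • H.map (algebraMap ℚ F) := by
        ext i j
        rw [Matrix.map_apply, Matrix.smul_apply, Matrix.map_apply, smul_eq_mul, Matrix.smul_apply,
          Matrix.map_apply, smul_eq_mul]
        have e2 : c * algebraMap ℚ K (H i j) = algebraMap ℚ F (H i j) • c := by
          rw [Algebra.smul_def, mul_comm, ← IsScalarTower.algebraMap_apply]
        rw [e2, map_smul, smul_eq_mul, mul_comm]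
      rw [e1]
      exact Submodule.smul_mem _ _ (Submodule.subset_span ⟨H, hH, rfl⟩)
    | zero =>
      intro c
      have : (c • (0 : Matrix m m K)).map φ = 0 := by ext i j; simp
      rw [this]; exact Submodule.zero_mem _
    | add x y _ _ hx hy =>
      intro c
      have : (c • (x + y)).map φ = (c • x).map φ + (c • y).map φ := by
        ext i j
        simp
      rw [this]; exact Submodule.add_mem _ (hx c) (hy c)
    | smul a x _ hx =>
      intro c
      rw [smul_smul]; exact hx _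
  have h1 := key _ hT 1
  rw [one_smul] at h1
  have h2 : (T.map (algebraMap F K)).map φ = T := by
    ext i j
    rw [Matrix.map_apply, Matrix.map_apply, hφ1]
  rwa [h2] at h1

theorem invariant_one {K : Type*} [Field K] (T : Matrix (n × n) (n × n) K) : Invariant T 1 := by
  intro X
  rw [inv_one, one_mul, mul_one, one_mul, mul_one]

theorem invariant_mul {K : Type*} [Field K] {T : Matrix (n × n) (n × n) K} {g h : Matrix n n K}
    (hg : Invariant T g) (hh : Invariant T h) : Invariant T (g * h) := by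
  intro X
  have e : ∀ Y : Matrix n n K, g * h * Y * (g * h)⁻¹ = g * (h * Y * h⁻¹) * g⁻¹ := by
    intro Y
    rw [Matrix.mul_inv_rev]
    simp only [mul_assoc]
  rw [e, e, hg, hh]

theorem invariant_inv {K : Type*} [Field K] {T : Matrix (n × n) (n × n) K} {g : Matrix n n K}
    (hu : IsUnit g.det) (hg : Invariant T g) : Invariant T g⁻¹ := by
  intro X
  have h1 : g⁻¹ * g = 1 := nonsing_inv_mul g hu
  have h2 : g * g⁻¹ = 1 := mul_nonsing_inv g hu
  have h3 := hg (g⁻¹ * X * g)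
  have e1 : g * (g⁻¹ * X * g) * g⁻¹ = X := by
    calc g * (g⁻¹ * X * g) * g⁻¹ = (g * g⁻¹) * X * (g * g⁻¹) := by simp only [mul_assoc]
      _ = X := by rw [h2, one_mul, mul_one]
  rw [e1] at h3
  rw [nonsing_inv_nonsing_inv g hu, h3]
  calc act T (g⁻¹ * X * g) = (g⁻¹ * g) * act T (g⁻¹ * X * g) * (g⁻¹ * g) := by
        rw [h1, one_mul, mul_one]
    _ = g⁻¹ * (g * act T (g⁻¹ * X * g) * g⁻¹) * g := by simp only [mul_assoc]

/-- Hodge tensors are invariant under the Mumford-Tate group -/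
theorem inv_mt {J : Matrix n n ℝ} (hJ : J * J = -1) {H : Matrix (n × n) (n × n) ℚ}
    (hH : HodgeTensor J H) {g : Matrix n n ℂ} (hg : g ∈ mumfordTate J ℂ) :
    Invariant (H.map (algebraMap ℚ ℂ)) g := by
  have h1 : ∀ M : Matrix n n ℂ, M ∈ zeros {p | ∃ k l i j, p = invPol H k l i j} ℂ ↔
      IsUnit M.det ∧ Invariant (H.map (algebraMap ℚ ℂ)) M := by
    intro M
    constructor
    · rintro ⟨hu, hp⟩
      refine ⟨hu, (inv_iff_single hu).mpr ?_⟩
      intro k l
      rw [← sub_eq_zero]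
      ext i j
      rw [← pev_invPol]
      exact hp _ ⟨k, l, i, j, rfl⟩
    · rintro ⟨hu, hi⟩
      refine ⟨hu, ?_⟩
      rintro _ ⟨k, l, i, j, rfl⟩
      rw [pev_invPol, sub_eq_zero.mpr ((inv_iff_single hu).mp hi k l)]
      rfl
  refine ((h1 g).mp (hg _ ⟨?_, ?_, ?_⟩ ?_)).2
  · rw [h1]; exact ⟨by simp, invariant_one _⟩
  · intro a ha b hb
    rw [h1] at ha hb ⊢
    exact ⟨by rw [det_mul]; exact ha.1.mul hb.1, invariant_mul ha.2 hb.2⟩
  · intro a ha
    rw [h1] at ha ⊢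
    exact ⟨(isUnit_nonsing_inv_det_iff).mpr ha.1, invariant_inv ha.1 ha.2⟩
  · intro a b hab
    have hu := circ_unit hJ _ ⟨a, b, hab, rfl⟩
    refine ⟨hu, ?_⟩
    rintro _ ⟨k, l, i, j, rfl⟩
    rw [pev_invPol, sub_eq_zero.mpr ((inv_iff_single hu).mp (hH a b hab) k l)]
    rfl

/-- combinations of Hodge tensors are invariant under the Mumford-Tate group -/
theorem inv_of_span {F : Type*} [Field F] [CharZero F] [Algebra F ℂ] {J : Matrix n n ℝ}
    (hJ : J * J = -1) {T : Matrix (n × n) (n × n) F}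
    (hT : T ∈ Submodule.span F {T' : Matrix (n × n) (n × n) F |
      ∃ H : Matrix (n × n) (n × n) ℚ, HodgeTensor J H ∧ T' = H.map (algebraMap ℚ F)}) :
    ∀ g ∈ mumfordTate J ℂ, Invariant (T.map (algebraMap F ℂ)) g := by
  intro g hg
  induction hT using Submodule.span_induction with
  | mem x hx =>
    obtain ⟨H, hH, rfl⟩ := hx
    have e1 : (H.map (algebraMap ℚ F)).map (algebraMap F ℂ) = H.map (algebraMap ℚ ℂ) := by
      ext i j
      rw [Matrix.map_apply, Matrix.map_apply, Matrix.map_apply, ← IsScalarTower.algebraMap_apply]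
    rw [e1]
    exact inv_mt hJ hH hg
  | zero =>
    have : (0 : Matrix (n × n) (n × n) F).map (algebraMap F ℂ) = 0 := by ext; simp
    rw [this]; exact inv_zero g
  | add x y _ _ hx hy =>
    rw [Matrix.map_add _ (map_add _)]; exact inv_add hx hy
  | smul a x _ hx =>
    have : (a • x).map (algebraMap F ℂ) = algebraMap F ℂ a • x.map (algebraMap F ℂ) := by
      ext i j; simp
    rw [this]; exact inv_smul _ hx

/-- components of a matrix for an idempotent -/
theorem conj_idem {K : Type*} [Field K] [CharZero K] {U : Submodule K (Matrix n n K)}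
    {P Y : Matrix n n K}
    (h : ∀ t : K, t ≠ 0 → (P + t • (1 - P)) * Y * (P + t⁻¹ • (1 - P)) ∈ U) :
    (1 - P) * Y * P ∈ U ∧ P * Y * (1 - P) ∈ U := by
  obtain ⟨Q, hQ⟩ : ∃ Q, Q = 1 - P := ⟨_, rfl⟩
  rw [← hQ] at h ⊢
  have e : ∀ t : K, t ≠ 0 → (P + t • Q) * Y * (P + t⁻¹ • Q) =
      (P * Y * P + Q * Y * Q) + t • (Q * Y * P) + t⁻¹ • (P * Y * Q) := by
    intro t ht
    simp only [add_mul, mul_add, smul_mul_assoc, mul_smul_comm, smul_smul, smul_add]
    rw [inv_mul_cancel₀ ht, one_smul]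
    abel
  have h1 := h 1 one_ne_zero
  have h2 := h (-1) (by norm_num)
  have h3 := h 2 two_ne_zero
  rw [e _ one_ne_zero] at h1
  rw [e _ (by norm_num)] at h2
  rw [e _ two_ne_zero] at h3
  obtain ⟨A, hA⟩ : ∃ A, A = P * Y * P + Q * Y * Q := ⟨_, rfl⟩
  obtain ⟨B, hB⟩ : ∃ B, B = Q * Y * P := ⟨_, rfl⟩
  obtain ⟨C, hC⟩ : ∃ C, C = P * Y * Q := ⟨_, rfl⟩
  rw [← hA, ← hB, ← hC] at h1 h2 h3
  rw [← hB, ← hC]
  have e1 : (-1 : K)⁻¹ = -1 := by norm_num
  rw [inv_one] at h1
  rw [e1] at h2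
  have hB' : B = (2 / 3 : K) • (A + (2 : K) • B + (2 : K)⁻¹ • C) -
      (1 / 2 : K) • (A + (1 : K) • B + (1 : K) • C) - (1 / 6 : K) • (A + (-1 : K) • B + (-1 : K) • C) := by
    module
  have hC' : C = (-2 / 3 : K) • (A + (2 : K) • B + (2 : K)⁻¹ • C) +
      (1 : K) • (A + (1 : K) • B + (1 : K) • C) - (1 / 3 : K) • (A + (-1 : K) • B + (-1 : K) • C) := by
    module
  constructor
  · rw [hB']
    exact U.sub_mem (U.sub_mem (U.smul_mem _ h3) (U.smul_mem _ h1)) (U.smul_mem _ h2)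
  · rw [hC']
    exact U.sub_mem (U.add_mem (U.smul_mem _ h3) (U.smul_mem _ h1)) (U.smul_mem _ h2)

theorem idem_inv {K : Type*} [Field K] {P : Matrix n n K} (hP : P * P = P) {t : K} (ht : t ≠ 0) :
    (P + t • (1 - P)) * (P + t⁻¹ • (1 - P)) = 1 := by
  have hQQ : (1 - P) * (1 - P) = 1 - P := by
    rw [sub_mul, one_mul, mul_sub, mul_one, hP]; abel
  have hPQ : P * (1 - P) = 0 := by rw [mul_sub, mul_one, hP, sub_self]
  have hQP : (1 - P) * P = 0 := by rw [sub_mul, one_mul, hP, sub_self]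
  rw [add_mul, mul_add, mul_add, hP, mul_smul_comm, hPQ, smul_mul_assoc, hQP, smul_mul_smul_comm,
    hQQ, mul_inv_cancel₀ ht, smul_zero, smul_zero, one_smul]
  abel

theorem idem_inv' {K : Type*} [Field K] {P : Matrix n n K} (hP : P * P = P) {t : K} (ht : t ≠ 0) :
    (P + t • (1 - P))⁻¹ = P + t⁻¹ • (1 - P) :=
  Matrix.inv_eq_right_inv (idem_inv hP ht)

/-- The Lie-theoretic heart: a projector onto the Lie algebra of `G` commuting with `M`. -/
theorem heart {K : Type*} [Field K] [CharZero K] {G M : Set (Matrix n n K)} (hGM : G ⊆ M)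
    (hone : 1 ∈ G) (hmulG : ∀ a ∈ G, ∀ b ∈ G, a * b ∈ G) (hmulM : ∀ a ∈ M, ∀ b ∈ M, a * b ∈ M)
    (hgen : CocharGen G) {T : Matrix (n × n) (n × n) K} (hT1 : ∀ X, act T X ∈ lieOf G)
    (hT2 : ∀ X ∈ lieOf G, act T X = X) (hTM : ∀ m ∈ M, Invariant T m)
    (hcomm : ∀ x : Matrix n n K, (∀ g ∈ G, g * x = x * g) → ∀ m ∈ M, m * x = x * m)
    (hcenter : ∀ X ∈ lieOf M, (∀ m ∈ M, m * X = X * m) → X ∈ lieOf G)
    {P : Matrix n n K} (hP : IsCochar M P) : 1 - P ∈ lieOf G := by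
  obtain ⟨Q, hQ⟩ : ∃ Q, Q = 1 - P := ⟨_, rfl⟩
  have hQM : Q ∈ lieOf M := by rw [hQ]; exact lieOf_torus hmulM hP.1 hP.2
  rw [← hQ]
  -- `lieOf G` is stable under the conjugation by `M`
  have hstab : ∀ m ∈ M, ∀ Y ∈ lieOf G, m * Y * m⁻¹ ∈ lieOf G := by
    intro m hm Y hY
    have h1 := hTM m hm Y
    rw [hT2 Y hY] at h1
    rw [← h1]; exact hT1 _
  have hQP1 : Q + P = 1 := by rw [hQ]; abel
  -- brackets with `Q`
  have hbrQ : ∀ Y ∈ lieOf G, Q * Y - Y * Q ∈ lieOf G := by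
    intro Y hY
    obtain ⟨h1, h2⟩ := conj_idem (U := lieOf G) (P := P) (Y := Y) (by
      intro t ht
      rw [← idem_inv' hP.1 ht]
      exact hstab _ (hP.2 t ht) Y hY)
    rw [← hQ] at h1 h2
    have e : Q * Y - Y * Q = Q * Y * P - P * Y * Q := by
      calc Q * Y - Y * Q = Q * Y * (Q + P) - (Q + P) * (Y * Q) := by rw [hQP1, mul_one, one_mul]
        _ = Q * Y * P - P * Y * Q := by noncomm_ring
    rw [e]
    exact (lieOf G).sub_mem h1 h2
  obtain ⟨x, hx⟩ : ∃ x, x = Q - act T Q := ⟨_, rfl⟩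
  have hTx : act T x = 0 := by
    have h1 : act T (Q - act T Q) = act T Q - act T (act T Q) := by
      have := (actL T).map_sub Q (act T Q)
      exact this
    rw [hx, h1, hT2 _ (hT1 Q), sub_self]
  have hxG : ∀ P₁, IsCochar G P₁ → P₁ * x = x * P₁ := by
    intro P₁ hP₁
    obtain ⟨Q₁, hQ₁⟩ : ∃ Q₁, Q₁ = 1 - P₁ := ⟨_, rfl⟩
    have hQ₁G : Q₁ ∈ lieOf G := by rw [hQ₁]; exact lieOf_torus hmulG hP₁.1 hP₁.2
    have hQPG : Q₁ + P₁ = 1 := by rw [hQ₁]; abel
    have hQQ : Q₁ * Q₁ = Q₁ := by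
      rw [hQ₁, sub_mul, one_mul, mul_sub, mul_one, hP₁.1]; abel
    have hPQ : P₁ * Q₁ = 0 := by rw [hQ₁, mul_sub, mul_one, hP₁.1, sub_self]
    have hQP : Q₁ * P₁ = 0 := by rw [hQ₁, sub_mul, one_mul, hP₁.1, sub_self]
    -- components of `act T Q`
    obtain ⟨h1, h2⟩ := conj_idem (U := lieOf G) (P := P₁) (Y := act T Q) (by
      intro t ht
      rw [← idem_inv' hP₁.1 ht]
      exact hstab _ (hGM (hP₁.2 t ht)) _ (hT1 Q))
    -- components of `Q`
    have h3 := hbrQ Q₁ hQ₁G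
    have h4 := lieOf_br hQ₁G h3
    have e3 : Q * Q₁ - Q₁ * Q = P₁ * Q * Q₁ - Q₁ * Q * P₁ := by
      calc Q * Q₁ - Q₁ * Q = (Q₁ + P₁) * (Q * Q₁) - Q₁ * Q * (Q₁ + P₁) := by rw [hQPG, mul_one, one_mul]
        _ = P₁ * Q * Q₁ - Q₁ * Q * P₁ := by noncomm_ring
    have e4 : Q₁ * (Q * Q₁ - Q₁ * Q) - (Q * Q₁ - Q₁ * Q) * Q₁ = -(P₁ * Q * Q₁) - Q₁ * Q * P₁ := by
      rw [e3]
      calc Q₁ * (P₁ * Q * Q₁ - Q₁ * Q * P₁) - (P₁ * Q * Q₁ - Q₁ * Q * P₁) * Q₁
          = (Q₁ * P₁) * Q * Q₁ - (Q₁ * Q₁) * Q * P₁ - P₁ * Q * (Q₁ * Q₁) + Q₁ * Q * (P₁ * Q₁) := by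
            noncomm_ring
        _ = -(P₁ * Q * Q₁) - Q₁ * Q * P₁ := by rw [hQP, hQQ, hPQ]; noncomm_ring
    rw [e3] at h3
    rw [e4] at h4
    have h5 : Q₁ * Q * P₁ ∈ lieOf G := by
      have : Q₁ * Q * P₁ = (-(1 / 2 : K)) • (P₁ * Q * Q₁ - Q₁ * Q * P₁) +
          (-(1 / 2 : K)) • (-(P₁ * Q * Q₁) - Q₁ * Q * P₁) := by module
      rw [this]
      exact (lieOf G).add_mem ((lieOf G).smul_mem _ h3) ((lieOf G).smul_mem _ h4)
    have h6 : P₁ * Q * Q₁ ∈ lieOf G := by
      have : P₁ * Q * Q₁ = (P₁ * Q * Q₁ - Q₁ * Q * P₁) + Q₁ * Q * P₁ := by abel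
      rw [this]
      exact (lieOf G).add_mem h3 h5
    -- components of `x` in the kernel
    obtain ⟨h7, h8⟩ := conj_idem (U := LinearMap.ker (actL T)) (P := P₁) (Y := x) (by
      intro t ht
      rw [← idem_inv' hP₁.1 ht, LinearMap.mem_ker, actL_apply, hTM _ (hGM (hP₁.2 t ht)), hTx,
        mul_zero, zero_mul])
    rw [← hQ₁] at h1 h2 h7 h8
    rw [LinearMap.mem_ker, actL_apply] at h7 h8
    have h9 : Q₁ * x * P₁ = 0 := by
      rw [← h7]
      symm
      apply hT2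
      rw [hx]
      have : Q₁ * (Q - act T Q) * P₁ = Q₁ * Q * P₁ - Q₁ * act T Q * P₁ := by noncomm_ring
      rw [this]
      exact (lieOf G).sub_mem h5 h1
    have h10 : P₁ * x * Q₁ = 0 := by
      rw [← h8]
      symm
      apply hT2
      rw [hx]
      have : P₁ * (Q - act T Q) * Q₁ = P₁ * Q * Q₁ - P₁ * act T Q * Q₁ := by noncomm_ring
      rw [this]
      exact (lieOf G).sub_mem h6 h2
    calc P₁ * x = P₁ * x * (Q₁ + P₁) := by rw [hQPG, mul_one]
      _ = P₁ * x * Q₁ + P₁ * x * P₁ := by rw [mul_add]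
      _ = Q₁ * x * P₁ + P₁ * x * P₁ := by rw [h9, h10]
      _ = (Q₁ + P₁) * x * P₁ := by noncomm_ring
      _ = x * P₁ := by rw [hQPG, one_mul]
  -- `x` commutes with `G`
  have hxc : ∀ s ∈ Submonoid.closure (cocharSet G), s * x = x * s := by
    intro s hs
    induction hs using Submonoid.closure_induction with
    | mem y hy =>
      obtain ⟨P₁, t, hP₁, ht, rfl⟩ := hy
      have h1 := hxG P₁ hP₁
      simp only [add_mul, mul_add, sub_mul, mul_sub, smul_mul_assoc, mul_smul_comm, one_mul, mul_one,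
        h1]
    | one => rw [one_mul, mul_one]
    | mul y z _ _ hy hz => rw [mul_assoc, hz, ← mul_assoc, hy, mul_assoc]
  have hxG' : ∀ g ∈ G, g * x = x * g := by
    intro g hg
    rw [← sub_eq_zero]
    ext i j
    let q : MvPolynomial (n × n) K := ∑ k, (MvPolynomial.X (i, k) * MvPolynomial.C (x k j) -
      MvPolynomial.C (x i k) * MvPolynomial.X (k, j))
    have hq : ∀ (N : Matrix n n K), pev N q = (N * x - x * N) i j := by
      intro N
      simp only [q, map_sum, map_sub, map_mul, pev_C, pev_X, Matrix.sub_apply, Matrix.mul_apply,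
        Finset.sum_sub_distrib, Algebra.algebraMap_self, RingHom.id_apply]
    rw [← hq]
    apply hgen q _ g hg
    intro s hs
    rw [hq, hxc s hs, sub_self]; rfl
  have hxM := hcomm x hxG'
  have hxL : x ∈ lieOf M := by
    rw [hx]
    exact (lieOf M).sub_mem hQM (lieOf_mono hGM hone hmulM (hT1 Q))
  have h1 := hcenter x hxL hxM
  have h2 : Q = x + act T Q := by rw [hx]; abel
  rw [h2]
  exact (lieOf G).add_mem h1 (hT1 Q)

section final
variable {F Γ : Type*} [Field F] [CharZero F] [Group Γ] [Algebra F ℂ]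

/-- the image of a subgroup -/
def imF (ρ : Γ →* GL n F) (Γ' : Subgroup Γ) : Set (Matrix n n F) :=
  {X : Matrix n n F | ∃ γ ∈ Γ', X = (ρ γ : Matrix n n F)}

theorem imF_eq (ρ : Γ →* GL n F) (Γ' : Subgroup Γ) : imF ρ Γ' = imK ρ F Γ' := by
  ext X
  constructor
  · rintro ⟨γ, hγ, rfl⟩
    exact ⟨γ, hγ, by ext i j; simp⟩
  · rintro ⟨γ, hγ, rfl⟩
    exact ⟨γ, hγ, by ext i j; simp⟩

theorem rho_inv (ρ : Γ →* GL n F) (γ : Γ) :
    ((ρ γ : GL n F) : Matrix n n F)⁻¹ = ((ρ γ⁻¹ : GL n F) : Matrix n n F) := by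
  rw [map_inv]
  exact (Matrix.coe_units_inv _).symm

theorem mono_map {ρ : Γ →* GL n F} {s : Matrix n n F} (hs : s ∈ monodromy ρ F) :
    s.map (algebraMap F ℂ) ∈ monodromy ρ ℂ := by
  intro Γ' hΓ'
  obtain ⟨h1, h2⟩ := hs Γ' hΓ'
  refine ⟨?_, ?_⟩
  · have h3 := h1.map (algebraMap F ℂ)
    rwa [RingHom.map_det, RingHom.mapMatrix_apply] at h3
  · intro p hp
    rw [pev_algebraMap, h2 p hp, map_zero]

theorem map_mono {ρ : Γ →* GL n F} {s : Matrix n n F} (hs : IsUnit s.det)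
    (h : s.map (algebraMap F ℂ) ∈ monodromy ρ ℂ) : s ∈ monodromy ρ F := by
  intro Γ' hΓ'
  refine ⟨hs, ?_⟩
  intro p hp
  have h1 := (h Γ' hΓ').2 p hp
  rw [pev_algebraMap] at h1
  exact (map_eq_zero (algebraMap F ℂ)).mp h1

/-- one subgroup of finite index computes the monodromy group, over `F` and over `ℂ` -/
theorem exists_min2 (ρ : Γ →* GL n F) : ∃ Γ₁ : Subgroup Γ, Γ₁.FiniteIndex ∧
    monodromy ρ ℂ = zcl (imK ρ ℂ Γ₁) ∧ monodromy ρ F = zcl (imF ρ Γ₁) ∧
      ∀ γ ∈ Γ₁, (ρ γ : Matrix n n F) ∈ monodromy ρ F := by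
  obtain ⟨Γ₁, hΓ₁, hG⟩ := exists_min (K := ℂ) ρ
  have h1 : ∀ γ ∈ Γ₁, (ρ γ : Matrix n n F) ∈ monodromy ρ F := by
    intro γ hγ
    apply map_mono ((isUnit_iff_isUnit_det _).mp (ρ γ).isUnit)
    rw [hG]
    exact subset_zcl (imK_unit ρ Γ₁) ⟨γ, hγ, rfl⟩
  refine ⟨Γ₁, hΓ₁, hG, ?_, h1⟩
  apply Set.eq_of_subset_of_subset
  · intro M hM
    have h2 := (mem_zclosure_iff ρ Γ₁ M).mp (hM Γ₁ hΓ₁)
    rwa [imF_eq]
  · intro M hM
    apply map_mono hM.1
    rw [hG]
    refine ⟨?_, ?_⟩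
    · have h3 := hM.1.map (algebraMap F ℂ)
      rwa [RingHom.map_det, RingHom.mapMatrix_apply] at h3
    · intro q hq
      apply vanish_basechange (F := F) (S := imF ρ Γ₁)
      · intro p hp
        rw [pev_algebraMap, hM.2 p hp, map_zero]
      · rintro _ ⟨γ, hγ, rfl⟩
        exact hq _ ⟨γ, hγ, rfl⟩

/-- rational endomorphisms commute with the Mumford-Tate group -/
theorem end_comm {J : Matrix n n ℝ} (hJ : J * J = -1) {Y : Matrix n n ℚ}
    (hY : Y.map (algebraMap ℚ ℝ) * J = J * Y.map (algebraMap ℚ ℝ)) :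
    ∀ m ∈ mumfordTate J ℂ, m * Y.map (algebraMap ℚ ℂ) = Y.map (algebraMap ℚ ℂ) * m := by
  intro m hm
  have hH : HodgeTensor J (tens (LinearMap.mulLeft ℚ Y)) := by
    intro a b hab
    have hu := circ_unit hJ _ ⟨a, b, hab, rfl⟩
    have e1 : ∀ X : Matrix n n ℝ, act ((tens (LinearMap.mulLeft ℚ Y)).map (algebraMap ℚ ℝ)) X =
        Y.map (algebraMap ℚ ℝ) * X := by
      intro X
      have h1 : (tens (LinearMap.mulLeft ℚ Y)).map (algebraMap ℚ ℝ) =
          tens (LinearMap.mulLeft ℝ (Y.map (algebraMap ℚ ℝ))) := by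
        ext p q
        simp only [tens, Matrix.map_apply, LinearMap.mulLeft_apply]
        have h2 : (Matrix.single q.1 q.2 (1 : ℚ)).map (algebraMap ℚ ℝ) = Matrix.single q.1 q.2 1 := by
          ext a b
          simp [Matrix.single_apply, apply_ite]
        rw [← h2, ← Matrix.map_mul, Matrix.map_apply]
      rw [h1, act_tens, LinearMap.mulLeft_apply]
    intro X
    rw [e1, e1, ← mul_assoc, ← mul_assoc, ← mul_assoc]
    congr 2
    simp only [mul_add, add_mul, mul_smul_comm, smul_mul_assoc, mul_one, one_mul, hY]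
  have h1 := inv_mt hJ hH hm 1
  have h2 : act ((tens (LinearMap.mulLeft ℚ Y)).map (algebraMap ℚ ℂ)) 1 = Y.map (algebraMap ℚ ℂ) := by
    have h5 := map_act (algebraMap ℚ ℂ) (tens (LinearMap.mulLeft ℚ Y)) 1
    rw [Matrix.map_one _ (map_zero _) (map_one _), act_tens] at h5
    rw [← h5, LinearMap.mulLeft_apply, mul_one]
  have hu := mt_unit hJ hm
  rw [mul_one, mul_nonsing_inv m hu, h2] at h1
  nth_rewrite 2 [h1]
  rw [mul_assoc _ m⁻¹ m, nonsing_inv_mul m hu, mul_one]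

/-- The Mumford-Tate conjecture follows if a projector onto the Lie algebra is a combination of Hodge
tensors. -/
theorem main_one {J : Matrix n n ℝ} (hJ : J * J = -1) {ρ : Γ →* GL n F} (h : AbelianLike J ρ ℂ)
    (hT : LieIsHodge J ρ) : monodromy ρ ℂ = mumfordTate J ℂ := by
  obtain ⟨⟨Γ₀, hΓ₀, hdel⟩, -, hend, hgen, hcenter⟩ := h
  have hGM : monodromy ρ ℂ ⊆ mumfordTate J ℂ := deligne_le hdel hΓ₀
  obtain ⟨Γ₁, hΓ₁, hG, hGF, hmem⟩ := exists_min2 ρ
  have hvan : ∀ q : MvPolynomial (n × n) ℂ, (∀ t ∈ monodromy ρ ℂ, pev t q = 0) ↔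
      ∀ s ∈ monodromy ρ F, pev (s.map (algebraMap F ℂ)) q = 0 := by
    intro q
    constructor
    · intro h1 s hs; exact h1 _ (mono_map hs)
    · intro h1 t ht
      rw [hG] at ht
      apply ht.2
      rintro _ ⟨γ, hγ, rfl⟩
      exact h1 _ (hmem γ hγ)
  have hone : (1 : Matrix n n ℂ) ∈ monodromy ρ ℂ := by
    rw [hG]; exact subset_zcl (imK_unit ρ Γ₁) (imK_one ρ Γ₁)
  have hmulG : ∀ a ∈ monodromy ρ ℂ, ∀ b ∈ monodromy ρ ℂ, a * b ∈ monodromy ρ ℂ := by
    rw [hG]; intro a ha b hb; exact zcl_mul (imK_mul ρ Γ₁) ha hb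
  have hclG : ∀ M : Matrix n n ℂ, IsUnit M.det →
      (∀ p : MvPolynomial (n × n) ℂ, (∀ g ∈ monodromy ρ ℂ, pev g p = 0) → pev M p = 0) →
      M ∈ monodromy ρ ℂ := by
    intro M hM hMp
    rw [hG]
    refine ⟨hM, ?_⟩
    intro p hp
    apply hMp
    intro g hg
    rw [hG] at hg
    exact hg.2 p hp
  obtain ⟨T₀, hT₀, hL1, hL2⟩ := hT
  obtain ⟨T, hTdef⟩ : ∃ T, T = T₀.map (algebraMap F ℂ) := ⟨_, rfl⟩
  have hTM : ∀ m ∈ mumfordTate J ℂ, Invariant T m := by
    rw [hTdef]; exact inv_of_span hJ hT₀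
  have hTmap : ∀ X : Matrix n n F, act T (X.map (algebraMap F ℂ)) =
      (act T₀ X).map (algebraMap F ℂ) := by
    intro X
    rw [hTdef, ← map_act]
  have hT1 : ∀ X, act T X ∈ lieOf (monodromy ρ ℂ) := by
    intro X
    obtain ⟨s, co, hX, -⟩ := mat_dec (F := F) X
    rw [hX, ← actL_apply, map_sum]
    apply Submodule.sum_mem
    intro k _
    rw [map_smul, actL_apply, hTmap]
    exact Submodule.smul_mem _ _ (lie_up hvan (hL1 _))
  have hT2 : ∀ X ∈ lieOf (monodromy ρ ℂ), act T X = X := by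
    intro X hX
    obtain ⟨s, co, hXs, hco⟩ := lie_down hvan hX
    rw [← actL_apply]
    conv_lhs => rw [hXs, map_sum]
    conv_rhs => rw [hXs]
    apply Finset.sum_congr rfl
    intro k hk
    rw [map_smul, actL_apply, hTmap, hL2 _ (hco k hk)]
  -- commutants
  have hcomm : ∀ x : Matrix n n ℂ, (∀ g ∈ monodromy ρ ℂ, g * x = x * g) →
      ∀ m ∈ mumfordTate J ℂ, m * x = x * m := by
    intro x hx m hm
    obtain ⟨s, co, hxs, -⟩ := mat_dec (F := F) x
    -- the components commute with the image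
    have h1 : ∀ k ∈ s, ∀ γ ∈ Γ₁, (ρ γ : Matrix n n F) * co k = co k * (ρ γ : Matrix n n F) := by
      intro k hk γ hγ
      have h3 := hx _ (mono_map (hmem γ hγ))
      rw [← sub_eq_zero, hxs, Finset.mul_sum, Finset.sum_mul, ← Finset.sum_sub_distrib] at h3
      have h4 : ∀ k, (ρ γ : Matrix n n F).map (algebraMap F ℂ) *
          (Module.Basis.ofVectorSpace F ℂ k) • (co k).map (algebraMap F ℂ) -
          (Module.Basis.ofVectorSpace F ℂ k) • (co k).map (algebraMap F ℂ) *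
            (ρ γ : Matrix n n F).map (algebraMap F ℂ) =
          (Module.Basis.ofVectorSpace F ℂ k) •
            ((ρ γ : Matrix n n F) * co k - co k * (ρ γ : Matrix n n F)).map (algebraMap F ℂ) := by
        intro k
        rw [Matrix.map_sub _ (map_sub _), Matrix.map_mul, Matrix.map_mul, mul_smul_comm,
          smul_mul_assoc, smul_sub]
      rw [Finset.sum_congr rfl (fun k _ => h4 k)] at h3
      rw [← sub_eq_zero]
      ext i j
      have h5 := congrFun (congrFun h3 i) j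
      rw [Matrix.sum_apply] at h5
      simp only [Matrix.smul_apply, Matrix.map_apply, smul_eq_mul] at h5
      exact rel_zero (a := fun k => ((ρ γ : Matrix n n F) * co k - co k * (ρ γ : Matrix n n F)) i j)
        h5 k hk
    have h2 : ∀ k ∈ s, m * (co k).map (algebraMap F ℂ) = (co k).map (algebraMap F ℂ) * m := by
      intro k hk
      have h3 := hend Γ₁ hΓ₁ (co k) (h1 k hk)
      generalize co k = Z at h3 ⊢
      induction h3 using Submodule.span_induction with
      | mem z hz =>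
        obtain ⟨Y, hY, rfl⟩ := hz
        have e1 : (Y.map (algebraMap ℚ F)).map (algebraMap F ℂ) = Y.map (algebraMap ℚ ℂ) := by
          ext i j
          rw [Matrix.map_apply, Matrix.map_apply, Matrix.map_apply, ← IsScalarTower.algebraMap_apply]
        rw [e1]
        exact end_comm hJ hY m hm
      | zero =>
        have : (0 : Matrix n n F).map (algebraMap F ℂ) = 0 := by ext; simp
        rw [this, mul_zero, zero_mul]
      | add x y _ _ hx hy => rw [Matrix.map_add _ (map_add _), mul_add, add_mul, hx, hy]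
      | smul a x _ hx =>
        have : (a • x).map (algebraMap F ℂ) = algebraMap F ℂ a • x.map (algebraMap F ℂ) := by
          ext i j; simp
        rw [this, mul_smul_comm, smul_mul_assoc, hx]
    rw [hxs, Finset.mul_sum, Finset.sum_mul]
    apply Finset.sum_congr rfl
    intro k hk
    rw [mul_smul_comm, smul_mul_assoc, h2 k hk]
  have key : ∀ P, IsCochar (mumfordTate J ℂ) P → 1 - P ∈ lieOf (monodromy ρ ℂ) := by
    intro P hP
    exact heart hGM hone hmulG mt_mul hgen hT1 hT2 hTM hcomm hcenter hP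
  apply Set.eq_of_subset_of_subset hGM
  intro g hg
  apply hclG g (mt_unit hJ hg)
  intro p hp
  apply mt_gen hJ p _ g hg
  intro s hs
  have hs' : s ∈ monodromy ρ ℂ := by
    induction hs using Submonoid.closure_induction with
    | mem x hx =>
      obtain ⟨P, t, hP, ht, rfl⟩ := hx
      have h1 := key P hP
      have hQQ : (1 - P) * (1 - P) = 1 - P := by
        rw [sub_mul, one_mul, mul_sub, mul_one, hP.1]; abel
      apply hclG _ (idem_det hP.1 ht)
      intro p hp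
      have h2 := idem_mem hone hQQ h1 t p hp
      rwa [sub_sub_cancel] at h2
    | one => exact hone
    | mul x y _ _ hx hy => exact hmulG _ hx _ hy
  exact hp s hs'

/-- The projector is a Tate tensor. -/
theorem main_two {J : Matrix n n ℝ} {ρ : Γ →* GL n F} (h : AbelianLike J ρ ℂ)
    (hT : TateIsHodge J ρ) : LieIsHodge J ρ := by
  obtain ⟨Γ₁, hΓ₁, -, hGF, hmem⟩ := exists_min2 ρ
  have hmul : ∀ a ∈ monodromy ρ F, ∀ b ∈ monodromy ρ F, a * b ∈ monodromy ρ F := by
    rw [hGF]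
    intro a ha b hb
    apply zcl_mul _ ha hb
    rintro _ ⟨γ, hγ, rfl⟩ _ ⟨δ, hδ, rfl⟩
    exact ⟨γ * δ, Γ₁.mul_mem hγ hδ, by rw [map_mul, Units.val_mul]⟩
  -- conjugation by the image
  have hstab : ∀ γ ∈ Γ₁, ∀ X ∈ lieOf (monodromy ρ F),
      (ρ γ : Matrix n n F) * X * (ρ γ : Matrix n n F)⁻¹ ∈ lieOf (monodromy ρ F) := by
    intro γ hγ X hX
    apply lieOf_conj _ _ _ hX
    · exact nonsing_inv_mul _ ((isUnit_iff_isUnit_det _).mp (ρ γ).isUnit)
    · intro a ha
      exact hmul a ha _ (hmem γ hγ)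
    · intro a ha
      rw [rho_inv]
      exact hmul a ha _ (hmem γ⁻¹ (Γ₁.inv_mem hγ))
  obtain ⟨W', hW, hW'⟩ := h.semisimple Γ₁ hΓ₁ (lieOf (monodromy ρ F)) hstab
  obtain ⟨L, hL⟩ : ∃ L, L = (lieOf (monodromy ρ F)).projection W' hW := ⟨_, rfl⟩
  have hL1 : ∀ X, L X ∈ lieOf (monodromy ρ F) := by
    intro X; rw [hL]; exact Submodule.projection_apply_mem hW X
  have hL2 : ∀ X ∈ lieOf (monodromy ρ F), L X = X := by
    intro X hX; rw [hL]; exact Submodule.projection_apply_of_mem_left hW hX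
  have hL3 : ∀ X ∈ W', L X = 0 := by
    intro X hX; rw [hL]; exact Submodule.projection_apply_of_mem_right hW hX
  have hTate : TateTensor ρ (tens L) := by
    refine ⟨Γ₁, hΓ₁, ?_⟩
    intro γ hγ X
    rw [act_tens, act_tens]
    have hX : X ∈ lieOf (monodromy ρ F) ⊔ W' := by rw [hW.sup_eq_top]; trivial
    obtain ⟨u, hu, w, hw, rfl⟩ := Submodule.mem_sup.mp hX
    have e1 : (ρ γ : Matrix n n F) * (u + w) * (ρ γ : Matrix n n F)⁻¹ =
        (ρ γ : Matrix n n F) * u * (ρ γ : Matrix n n F)⁻¹ +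
        (ρ γ : Matrix n n F) * w * (ρ γ : Matrix n n F)⁻¹ := by rw [mul_add, add_mul]
    rw [e1, map_add, map_add, hL2 _ (hstab γ hγ u hu), hL3 _ (hW' γ hγ w hw), hL2 u hu, hL3 w hw,
      add_zero, add_zero]
  refine ⟨tens L, hT _ hTate, ?_, ?_⟩
  · intro X; rw [act_tens]; exact hL1 X
  · intro X hX; rw [act_tens]; exact hL2 X hX

/-- The statement on tensors follows from the Mumford-Tate conjecture. -/
theorem main_three {J : Matrix n n ℝ} (hJ : J * J = -1) {ρ : Γ →* GL n F}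
    (h : monodromy ρ ℂ = mumfordTate J ℂ) : TateIsHodge J ρ := by
  intro T hT
  obtain ⟨Γ', hΓ', hT'⟩ := hT
  have h1 : ∀ g ∈ mumfordTate J ℂ, Invariant (T.map (algebraMap F ℂ)) g := by
    intro g hg
    rw [← h] at hg
    have h2 := hg Γ' hΓ'
    refine inv_zclosure (L := F) ?_ ?_ h2
    · rintro _ ⟨γ, _, rfl⟩
      exact (isUnit_iff_isUnit_det _).mp (ρ γ).isUnit
    · rintro _ ⟨γ, hγ, rfl⟩
      have : T.map (algebraMap F F) = T := by ext i j; simp
      rw [this]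
      exact hT' γ hγ
  have h2 := tens_descent hJ _ h1
  have h3 : T.map (algebraMap F ℂ) ∈ Submodule.span ℂ {T' : Matrix (n × n) (n × n) ℂ |
      ∃ H ∈ {H : Matrix (n × n) (n × n) ℚ | HodgeTensor J H}, T' = H.map (algebraMap ℚ ℂ)} := by
    refine Submodule.span_mono ?_ h2
    rintro _ ⟨H, hH, rfl⟩
    exact ⟨H, hodge_of_inv hJ hH, rfl⟩
  exact span_down h3

theorem main_tfae {J : Matrix n n ℝ} (hJ : J * J = -1) {ρ : Γ →* GL n F} (h : AbelianLike J ρ ℂ) :
    List.TFAE [monodromy ρ ℂ = mumfordTate J ℂ, TateIsHodge J ρ, LieIsHodge J ρ] := by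
  tfae_have 1 → 2 := main_three hJ
  tfae_have 2 → 3 := main_two h
  tfae_have 3 → 1 := main_one hJ h
  tfae_finish

end final

end Pool.Agent.Helper3_MT
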