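import Pool.Agent.Helper3_MT.Main

/-!
The Mumford-Tate conjecture in degree one is a statement on tensors of type (2,2), that is on classes
of codimension two.
-/

set_option autoImplicit false

namespace Pool.Agent.Results.MP_c1bb77_ag.CodimensionTwo

open Matrix Pool.Agent.Helper78_MT Pool.Agent.Helper3_MT

universe u v

/-- Let `J` be a complex structure on `ℝⁿ` and `ρ` a representation over `ℚ_ℓ`, which have the
properties proved, for the first cohomology of an abelian variety over a number field, by Deligne, by
Faltings, by Serre, Sen and Pink, and by Vasiu, Ullmo and Yafaev (see `AbelianLike`).  Embed `ℚ_ℓ` in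
`ℂ`.  The following are equivalent: the connected monodromy group is the Mumford-Tate group; every Tate
tensor in `End (End V)` (for an abelian variety `A`: every Tate class of codimension two in the tensor
power `H¹(A) ⊗ H¹(A) ⊗ H¹(A) ⊗ H¹(A)` inside the cohomology of `A⁴`) is a linear combination of Hodge
tensors; some projector of `End V` onto the Lie algebra of the monodromy group is a linear combination
of Hodge tensors. -/
theorem result (n : Type u) [Fintype n] [DecidableEq n] (Γ : Type v) [Group Γ] (ℓ : ℕ)
    [Fact ℓ.Prime] [Algebra ℚ_[ℓ] ℂ] (J : Matrix n n ℝ) (hJ : J * J = -1)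
    (ρ : Γ →* GL n ℚ_[ℓ]) (hρ : AbelianLike J ρ ℂ) :
    List.TFAE [monodromy ρ ℂ = mumfordTate J ℂ, TateIsHodge J ρ, LieIsHodge J ρ] :=
  main_tfae hJ hρ

end Pool.Agent.Results.MP_c1bb77_ag.CodimensionTwo
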