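import Pool.Agent.Helper3_MT.Defs
import Pool.Agent.Helper3_MT.Aut

/-! Tensors and invariance. -/

set_option autoImplicit false
set_option linter.unusedSectionVars false

namespace Pool.Agent.Helper3_MT

open Matrix Module Pool.Agent.Helper78_MT

variable {n : Type*} [Fintype n] [DecidableEq n]

section ring
variable {R : Type*} [CommRing R]

theorem act_apply (T : Matrix (n × n) (n × n) R) (X : Matrix n n R) (i j : n) :
    act T X i j = ∑ p : n × n, T (i, j) p * X p.1 p.2 := rfl

theorem act_add (T : Matrix (n × n) (n × n) R) (X Y : Matrix n n R) :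
    act T (X + Y) = act T X + act T Y := by
  ext i j
  simp only [act_apply, Matrix.add_apply, mul_add, Finset.sum_add_distrib]

theorem act_smul (T : Matrix (n × n) (n × n) R) (c : R) (X : Matrix n n R) :
    act T (c • X) = c • act T X := by
  ext i j
  simp only [act_apply, Matrix.smul_apply, smul_eq_mul, Finset.mul_sum]
  exact Finset.sum_congr rfl (fun p _ => by ring)

theorem add_act (T T' : Matrix (n × n) (n × n) R) (X : Matrix n n R) :
    act (T + T') X = act T X + act T' X := by
  ext i j
  simp only [act_apply, Matrix.add_apply, add_mul, Finset.sum_add_distrib]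

theorem smul_act (T : Matrix (n × n) (n × n) R) (c : R) (X : Matrix n n R) :
    act (c • T) X = c • act T X := by
  ext i j
  simp only [act_apply, Matrix.smul_apply, smul_eq_mul, Finset.mul_sum]
  exact Finset.sum_congr rfl (fun p _ => by ring)

theorem zero_act (X : Matrix n n R) : act (0 : Matrix (n × n) (n × n) R) X = 0 := by
  ext i j
  simp [act_apply]

/-- as a linear map -/
def actL (T : Matrix (n × n) (n × n) R) : Matrix n n R →ₗ[R] Matrix n n R where
  toFun := act T
  map_add' := act_add T
  map_smul' := act_smul T

theorem actL_apply (T : Matrix (n × n) (n × n) R) (X : Matrix n n R) : actL T X = act T X := rfl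

theorem map_act {R' : Type*} [CommRing R'] (f : R →+* R') (T : Matrix (n × n) (n × n) R)
    (X : Matrix n n R) : (act T X).map f = act (T.map f) (X.map f) := by
  ext i j
  simp only [act_apply, Matrix.map_apply, map_sum, map_mul]

/-- the tensor of a linear map -/
def tens (L : Matrix n n R →ₗ[R] Matrix n n R) : Matrix (n × n) (n × n) R :=
  fun p q => L (Matrix.single q.1 q.2 1) p.1 p.2

theorem act_tens (L : Matrix n n R →ₗ[R] Matrix n n R) (X : Matrix n n R) :
    act (tens L) X = L X := by
  ext i j
  rw [act_apply, Fintype.sum_prod_type]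
  conv_rhs => rw [Matrix.matrix_eq_sum_single X]
  rw [map_sum, Matrix.sum_apply]
  apply Finset.sum_congr rfl
  intro k _
  rw [map_sum, Matrix.sum_apply]
  apply Finset.sum_congr rfl
  intro l _
  have : Matrix.single k l (X k l) = X k l • Matrix.single k l (1 : R) := by
    rw [Matrix.smul_single, smul_eq_mul, mul_one]
  rw [this, map_smul, Matrix.smul_apply, smul_eq_mul, mul_comm]
  rfl

theorem inv_iff {T : Matrix (n × n) (n × n) R} {g : Matrix n n R} (hg : IsUnit g.det) :
    Invariant T g ↔ ∀ X, act T (g * X) * g = g * act T (X * g) := by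
  have h1 : g⁻¹ * g = 1 := nonsing_inv_mul g hg
  have h2 : g * g⁻¹ = 1 := mul_nonsing_inv g hg
  constructor
  · intro h X
    have h3 := h (X * g)
    have h4 : g * (X * g) * g⁻¹ = g * X := by
      rw [mul_assoc, mul_assoc, h2, mul_one]
    rw [h4] at h3
    rw [h3, mul_assoc _ g⁻¹ g, h1, mul_one]
  · intro h X
    have h3 := h (X * g⁻¹)
    rw [mul_assoc X g⁻¹ g, h1, mul_one] at h3
    rw [mul_assoc g X, ← h3, mul_assoc _ g g⁻¹, h2, mul_one]

/-- it is enough to check on the matrix units -/
theorem inv_iff_single {T : Matrix (n × n) (n × n) R} {g : Matrix n n R} (hg : IsUnit g.det) :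
    Invariant T g ↔ ∀ k l, act T (g * Matrix.single k l 1) * g = g * act T (Matrix.single k l 1 * g) := by
  rw [inv_iff hg]
  constructor
  · intro h k l; exact h _
  · intro h X
    let A : Matrix n n R →ₗ[R] Matrix n n R :=
      { toFun := fun X => act T (g * X) * g
        map_add' := by intro X Y; rw [mul_add, act_add, add_mul]
        map_smul' := by intro c X; rw [mul_smul_comm, act_smul, smul_mul_assoc]; rfl }
    let B : Matrix n n R →ₗ[R] Matrix n n R :=
      { toFun := fun X => g * act T (X * g)
        map_add' := by intro X Y; rw [add_mul, act_add, mul_add]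
        map_smul' := by intro c X; rw [smul_mul_assoc, act_smul, mul_smul_comm]; rfl }
    have hAB : A = B := by
      apply LinearMap.ext
      intro X
      rw [Matrix.matrix_eq_sum_single X, map_sum, map_sum]
      apply Finset.sum_congr rfl
      intro k _
      rw [map_sum, map_sum]
      apply Finset.sum_congr rfl
      intro l _
      have : Matrix.single k l (X k l) = X k l • Matrix.single k l (1 : R) := by
        rw [Matrix.smul_single, smul_eq_mul, mul_one]
      rw [this, map_smul, map_smul]
      congr 1
      exact h k l
    exact congrArg (fun L : Matrix n n R →ₗ[R] Matrix n n R => L X) hAB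

theorem inv_add {T T' : Matrix (n × n) (n × n) R} {g : Matrix n n R} (h : Invariant T g)
    (h' : Invariant T' g) : Invariant (T + T') g := by
  intro X
  rw [add_act, add_act, h, h', mul_add, add_mul]

theorem inv_smul {T : Matrix (n × n) (n × n) R} {g : Matrix n n R} (c : R) (h : Invariant T g) :
    Invariant (c • T) g := by
  intro X
  rw [smul_act, smul_act, h, mul_smul_comm, smul_mul_assoc]

theorem inv_zero (g : Matrix n n R) : Invariant (0 : Matrix (n × n) (n × n) R) g := by
  intro X
  rw [zero_act, zero_act, mul_zero, zero_mul]

theorem inv_span {S : Set (Matrix (n × n) (n × n) R)} {g : Matrix n n R}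
    (h : ∀ T ∈ S, Invariant T g) : ∀ T ∈ Submodule.span R S, Invariant T g := by
  intro T hT
  induction hT using Submodule.span_induction with
  | mem x hx => exact h x hx
  | zero => exact inv_zero g
  | add x y _ _ hx hy => exact inv_add hx hy
  | smul a x _ hx => exact inv_smul a hx

end ring

/-- the generic matrix -/
noncomputable def gen (n : Type*) (R : Type*) [CommRing R] : Matrix n n (MvPolynomial (n × n) R) :=
  fun i j => MvPolynomial.X (i, j)

theorem map_gen {F L : Type*} [Field F] [Field L] [Algebra F L] (M : Matrix n n L) :
    (gen n F).map (pev M).toRingHom = M := by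
  ext i j
  simp [gen, pev]

theorem map_C {F L : Type*} [Field F] [Field L] [Algebra F L] (M : Matrix n n L) {m : Type*}
    (T : Matrix m m F) : (T.map MvPolynomial.C).map (pev (F := F) M).toRingHom =
      T.map (algebraMap F L) := by
  ext i j
  simp [pev]

/-- the polynomial of the invariance -/
noncomputable def invPol {F : Type*} [Field F] (T : Matrix (n × n) (n × n) F) (k l i j : n) :
    MvPolynomial (n × n) F :=
  (act (T.map MvPolynomial.C) (gen n F * Matrix.single k l 1) * gen n F -
    gen n F * act (T.map MvPolynomial.C) (Matrix.single k l 1 * gen n F) :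
      Matrix n n (MvPolynomial (n × n) F)) i j

theorem pev_invPol {F L : Type*} [Field F] [Field L] [Algebra F L] (M : Matrix n n L)
    (T : Matrix (n × n) (n × n) F) (k l i j : n) : pev M (invPol T k l i j) =
      (act (T.map (algebraMap F L)) (M * Matrix.single k l 1) * M -
        M * act (T.map (algebraMap F L)) (Matrix.single k l 1 * M)) i j := by
  have h1 : pev M (invPol T k l i j) =
      ((act (T.map MvPolynomial.C) (gen n F * Matrix.single k l 1) * gen n F -
    gen n F * act (T.map MvPolynomial.C) (Matrix.single k l 1 * gen n F) :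
      Matrix n n (MvPolynomial (n × n) F)).map (pev (F := F) M).toRingHom) i j := rfl
  rw [h1]
  have hs : (Matrix.single k l (1 : MvPolynomial (n × n) F)).map (pev (F := F) M).toRingHom =
      Matrix.single k l (1 : L) := by
    ext a b
    simp [Matrix.single_apply, apply_ite]
  rw [Matrix.map_sub _ (map_sub _), Matrix.map_mul, Matrix.map_mul, map_act, map_act,
    Matrix.map_mul, Matrix.map_mul, map_gen, map_C, hs]

/-- invariance passes to the Zariski closure -/
theorem inv_zclosure {F L K : Type*} [Field F] [Field L] [Field K] [Algebra F L] [Algebra F K]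
    {T : Matrix (n × n) (n × n) F} {S : Set (Matrix n n L)} (hS : ∀ s ∈ S, IsUnit s.det)
    (h : ∀ s ∈ S, Invariant (T.map (algebraMap F L)) s) {g : Matrix n n K}
    (hg : g ∈ zclosure F K S) : Invariant (T.map (algebraMap F K)) g := by
  rw [inv_iff_single hg.1]
  intro k l
  rw [← sub_eq_zero]
  ext i j
  rw [← pev_invPol]
  apply hg.2
  intro s hs
  rw [pev_invPol, sub_eq_zero.mpr ((inv_iff_single (hS s hs)).mp (h s hs) k l)]
  rfl

end Pool.Agent.Helper3_MT
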